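import Pool.Graph.R_pool_sql_team_seeded_2aa45f1a.Q282.UK.Defs

/-!
# The conjecture of Beilinson and Bloch for motives, and numerical formulas for complexes of motives
-/

set_option autoImplicit false

open CategoryTheory Limits AlgebraicGeometry Pool.Agent.Y116.UV Pool.Agent.Q282.UM
  Pool.Agent.Q282.UK

namespace Pool.Agent.Helper24.KZ

universe v u

/-- The finite direct sums of objects in the class `S`. -/
inductive SumOf {C : Type u} [Category.{v} C] [Preadditive C] [HasBinaryBiproducts C]
    (S : C → Prop) : C → Prop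
  | zero (M : C) : IsZero M → SumOf S M
  | of (M : C) : S M → SumOf S M
  | sum (M N : C) : SumOf S M → SumOf S N → SumOf S (M ⊞ N)
  | iso (M N : C) : Nonempty (M ≅ N) → SumOf S M → SumOf S N

/-- The complex is bounded. -/
def Bdd {C : Type u} [Category.{v} C] [Preadditive C] (K : CochainComplex C ℤ) : Prop :=
  ∃ a b : ℤ, ∀ i : ℤ, (i < a ∨ b < i) → IsZero (K.X i)

/-- The properties of the weight complexes over a field of characteristic zero (Gillet and Soulé):
the standard properties, and moreover

* `line`: the triangle `W(X × 𝔾_m) → W(X × 𝔸^1) = W(X)(-1) → W(X)` for the zero section of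
  `X × 𝔸^1`;
* `terms`: `W(X)` is given by a bounded complex whose terms are finite direct sums of motives
  `h(Y)(m)` of smooth projective schemes `Y` of dimension at most the dimension of `X`. -/
structure IsWeightsZero {C : Type u} [Category.{v} C] [Preadditive C] [HasBinaryBiproducts C]
    [HasZeroObject C] [HasFiniteBiproducts C] {k : Type} [Field k] (D : Weights k C) : Prop
    extends IsWeights D where
  line : ∀ (B : Type) [CommRing B] [Algebra k B] [Algebra.FiniteType k B],
    IsDistinguished (D.W (torS k B)) (onHK (D.tw (-1)) (D.W (aff k B))) (D.W (aff k B))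
  terms : ∀ X : Sch k, FT True X → ∀ N : ℕ, topologicalKrullDim X.left ≤ N →
    ∃ K : CochainComplex C ℤ, Bdd K ∧ Nonempty (D.W X ≅ toHK K) ∧
      ∀ i, SumOf (fun M => ∃ (Y : Sch k) (m : ℤ), IsSmoothProjective Y ∧
        topologicalKrullDim Y.left ≤ N ∧ Nonempty ((D.tw m).obj (D.h Y) ≅ M)) (K.X i)

/-- The category `C` of Chow motives over `k` with rational coefficients, with

* the motives `h(X)`, the Tate twists `M(n)` and the weight complexes `W(X)` (`Weights`);
* `cyc M`, the homologically trivial classes in `CH^0(M)`, so that `cyc (h(X)(i)) = CH^i(X)_0`;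
* the set `Pl` of the finite places `v` of `k`, and the number `q v` of elements of the residue field;
* the polynomial `P v M = det(1 - Frob_v T | H^(-1)(M)^(I_v))`. For `M = h(X)(i)` the cohomology
  `H^(-1)(M)` is `H^(2i-1)(X)(i)`. -/
structure MotivesL (k : Type) [Field k] (C : Type u) [Category.{v} C] [Preadditive C] extends
    Weights k C where
  cyc : C ⥤ ModuleCat.{0} ℚ
  cyc_additive : cyc.Additive
  Pl : Type
  q : Pl → ℝ
  P : Pl → C → Polynomial ℂ

instance {k : Type} [Field k] {C : Type u} [Category.{v} C] [Preadditive C] (D : MotivesL k C) :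
    D.cyc.Additive := D.cyc_additive

/-- The `L`-function of a motive: the Euler product `L(M, s) = ∏ P_v(q_v^(-s))⁻¹`. For
`M = h(X)(i)` this is `L(H^(2i-1)(X), s + i)`. -/
noncomputable def MotivesL.L {k : Type} [Field k] {C : Type u} [Category.{v} C] [Preadditive C]
    (D : MotivesL k C) (M : C) (s : ℂ) : ℂ :=
  ∏' v, ((D.P v M).eval ((D.q v : ℂ) ^ (-s)))⁻¹

/-- The standard properties, over a number field:

* `IsWeightsZero`: the properties of the weight complexes;
* `factor_iso`, `factor_sum`: the factors of isomorphic motives, and of direct sums;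
* `converges`: the Euler product converges and is not zero in some half plane;
* `low`: if `X` is smooth and projective and `n ≤ 0` then `CH^n(X)_0 = 0` and `H^(2n-1)(X) = 0`. -/
structure IsMotivesL {k : Type} [Field k] {C : Type u} [Category.{v} C] [Preadditive C]
    [HasZeroObject C] [HasBinaryBiproducts C] [HasFiniteBiproducts C] (D : MotivesL k C) : Prop
    extends IsWeightsZero D.toWeights where
  factor_iso : ∀ (v : D.Pl) (M N : C), Nonempty (M ≅ N) → D.P v M = D.P v N
  factor_sum : ∀ (v : D.Pl) (M N : C), D.P v (M ⊞ N) = D.P v M * D.P v N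
  converges : ∀ M : C, ∃ σ : ℝ, ∀ s : ℂ, σ < s.re →
    Multipliable (fun v => ((D.P v M).eval ((D.q v : ℂ) ^ (-s)))⁻¹) ∧ D.L M s ≠ 0
  low : ∀ X : Sch k, IsSmoothProjective X → ∀ n : ℤ, n ≤ 0 →
    IsZero (D.cyc.obj ((D.tw n).obj (D.h X))) ∧ ∀ v, D.P v ((D.tw n).obj (D.h X)) = 1

/-- `F` is a meromorphic continuation of `g` to a neighbourhood of the half line `[0, ∞)`: it agrees
with `g` in some half plane `Re s > σ`, and is meromorphic at all real numbers `x ≥ 0`. -/
def IsContinuation (g F : ℂ → ℂ) : Prop :=
  (∃ σ : ℝ, ∀ s : ℂ, σ < s.re → F s = g s) ∧ ∀ x : ℝ, 0 ≤ x → MeromorphicAt F x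

section formulas

variable {k : Type} [Field k] {C : Type u} [Category.{v} C] [Preadditive C]

/-- The conjecture of Beilinson and Bloch for `M`: the `L`-function of `M` has a meromorphic
continuation to a neighbourhood of `[0, ∞)`, and its order at `0` is the dimension of the space of
homologically trivial classes, which is finite. -/
def BB (D : MotivesL k C) (M : C) : Prop :=
  ∃ F, IsContinuation (D.L M) F ∧ Module.Finite ℚ (D.cyc.obj M) ∧
    meromorphicOrderAt F 0 = ((Module.finrank ℚ (D.cyc.obj M) : ℤ) : WithTop ℤ)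

/-- The conjecture of Beilinson and Bloch for the smooth projective scheme `X` over `k`, in all
codimensions `i ≥ 1`: the `L`-function of `H^(2i-1)(X)` has a meromorphic continuation along the
real axis to `s = i`, and its order at `s = i` is the dimension of `CH^i(X)_0`. (This is the
conjecture for the motives `h(X)(i)`, at `s = 0`. For `i ≤ 0` both numbers are zero.) -/
def BBFor (D : MotivesL k C) (X : Sch k) : Prop :=
  ∀ i : ℕ, 1 ≤ i → BB D ((D.tw (i : ℤ)).obj (D.h X))

/-- The vector space `H^n(cyc K)`, for a complex `K` of motives. -/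
noncomputable def Hcyc (D : MotivesL k C) (n : ℤ) (K : HK C) : ModuleCat.{0} ℚ :=
  (HomotopyCategory.homologyFunctor (ModuleCat.{0} ℚ) (ComplexShape.up ℤ) n).obj (onHK D.cyc K)

/-- The numerical formula for a complex `K` of motives: the spaces `H^n(cyc K)` have finite dimension,
almost all of them are zero, and for a bounded complex `L` isomorphic to `K` in the homotopy category
the product `∏ L(L^i, s)^((-1)^i)` has a meromorphic continuation to a neighbourhood of `[0, ∞)`, of
order `∑ (-1)^n dim H^n(cyc K)` at `0`. -/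
def Formula (D : MotivesL k C) (K : HK C) : Prop :=
  (∀ n, Module.Finite ℚ (Hcyc D n K)) ∧
  (Function.support fun n => Module.finrank ℚ (Hcyc D n K)).Finite ∧
  ∃ (L : CochainComplex C ℤ) (a b : ℤ) (F : ℂ → ℂ), (∀ i, (i < a ∨ b < i) → IsZero (L.X i)) ∧
    Nonempty (K ≅ toHK L) ∧
    IsContinuation (fun s => ∏ i ∈ Finset.Icc a b, D.L (L.X i) s ^ ((i.negOnePow : ℤˣ) : ℤ)) F ∧
    meromorphicOrderAt F 0 =
      ((∑ᶠ n : ℤ, ((n.negOnePow : ℤˣ) : ℤ) * (Module.finrank ℚ (Hcyc D n K) : ℤ) : ℤ) : WithTop ℤ)

/-- The numerical formula for the twists `W(Y)(n)` of the weight complex of the scheme `Y`. -/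
def FormulaFor (D : MotivesL k C) (Y : Sch k) : Prop :=
  ∀ n : ℤ, Formula D (onHK (D.tw n) (D.W Y))

end formulas

end Pool.Agent.Helper24.KZ
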