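import Pool.Agent.Helper24.KZ.Fold
import Pool.Agent.Helper24.KZ.Defs
import Pool.Graph.R_pool_sql_team_seeded_2aa45f1a.Q282.UK.Ret

/-!
# Alternating products over the terms of bounded complexes
-/

set_option autoImplicit false

open CategoryTheory Limits Pool.Agent.Q282.UK

namespace Pool.Agent.Helper24.KZ

universe v u

section defs

variable {C : Type u} [Category.{v} C] [Preadditive C] {A : Type*} [CommGroup A]

/-- The alternating product `∏ f(K^i)^((-1)^i)`. -/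
noncomputable def euler (f : C → A) (K : CochainComplex C ℤ) : A :=
  ∏ᶠ i : ℤ, f (K.X i) ^ ((i.negOnePow : ℤˣ) : ℤ)

/-- `K` is represented by a bounded complex with terms in `G` whose alternating product is `g`. -/
def Rep (G : C → Prop) (f : C → A) (K : HK C) (g : A) : Prop :=
  ∃ L : CochainComplex C ℤ, Bdd L ∧ (∀ i, G (L.X i)) ∧ Nonempty (K ≅ toHK L) ∧ euler f L = g

end defs

variable {C : Type u} [Category.{v} C] [Preadditive C] [HasBinaryBiproducts C] {A : Type*}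
  [CommGroup A] {G : C → Prop} {f : C → A}

lemma mulSupport_sub (h : Mult G f) {K : CochainComplex C ℤ} {a b : ℤ}
    (hK : ∀ i : ℤ, (i < a ∨ b < i) → IsZero (K.X i)) :
    Function.mulSupport (fun i : ℤ => f (K.X i) ^ ((i.negOnePow : ℤˣ) : ℤ)) ⊆
      (Finset.Icc a b : Finset ℤ) := by
  intro i hi
  rw [Finset.coe_Icc, Set.mem_Icc]
  by_contra hn
  apply hi
  have h1 : i < a ∨ b < i := by
    by_contra h2
    exact hn (by omega)
  change f (K.X i) ^ ((i.negOnePow : ℤˣ) : ℤ) = 1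
  rw [h.val_zero (hK i h1), one_zpow]

lemma mulSupport_fin (h : Mult G f) {K : CochainComplex C ℤ} (hK : Bdd K) :
    Function.HasFiniteMulSupport (fun i : ℤ => f (K.X i) ^ ((i.negOnePow : ℤˣ) : ℤ)) := by
  obtain ⟨a, b, hK⟩ := hK
  exact (Finset.finite_toSet _).subset (mulSupport_sub h hK)

/-- The alternating product for a sequence of objects. -/
lemma euler_range (h : Mult G f) {K : CochainComplex C ℤ} {a : ℤ} {n : ℕ}
    (hK : ∀ i : ℤ, (i < a ∨ a + n < i) → IsZero (K.X i)) :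
    euler f K = (∏ j ∈ Finset.range (n + 1), f (K.X (a + (j : ℤ))) ^ ((-1 : ℤ) ^ j)) ^
      ((a.negOnePow : ℤˣ) : ℤ) := by
  classical
  have hs : Function.mulSupport (fun i : ℤ => f (K.X i) ^ ((i.negOnePow : ℤˣ) : ℤ)) ⊆
      ((Finset.range (n + 1)).image (fun j : ℕ => a + (j : ℤ)) : Finset ℤ) := by
    intro i hi
    have h1 := mulSupport_sub h hK hi
    rw [Finset.coe_Icc, Set.mem_Icc] at h1
    rw [Finset.coe_image, Set.mem_image]
    exact ⟨(i - a).toNat, by simp; omega, by omega⟩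
  rw [euler, finprod_eq_prod_of_mulSupport_subset _ hs, Finset.prod_image (by
    intro x _ y _ hxy
    simpa using hxy), ← Finset.prod_zpow]
  refine Finset.prod_congr rfl fun j _ => ?_
  rw [← zpow_mul]
  congr 1
  rw [Int.negOnePow_add, Units.val_mul, mul_comm]
  congr 1

/-- **The alternating product of a contractible bounded complex is one.** -/
theorem euler_contractible (h : Mult G f) {K : CochainComplex C ℤ} (hK : Bdd K)
    (hG : ∀ i, G (K.X i)) (hc : Nonempty (Homotopy (𝟙 K) 0)) : euler f K = 1 := by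
  obtain ⟨a, b, hz⟩ := hK
  obtain ⟨s⟩ := hc
  let m : ℕ := (b - a).toNat
  have hz' : ∀ i : ℤ, (i < a ∨ a + ((m + 1 : ℕ) : ℤ) < i) → IsZero (K.X i) := by
    intro i hi
    apply hz
    rcases hi with hi | hi
    · exact Or.inl hi
    · right
      push_cast at hi
      omega
  rw [euler_range h hz']
  have key := fold_prod h m (fun j : ℕ => K.X (a + (j : ℤ)))
    (fun j => K.d (a + (j : ℤ)) (a + ((j + 1 : ℕ) : ℤ)))
    (fun j => s.hom (a + ((j + 1 : ℕ) : ℤ)) (a + (j : ℤ))) (fun j => hG _)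
    (fun j hj => hz' _ (Or.inr (by push_cast; omega)))
    (fun j => K.d_comp_d _ _ _) (by
      have h1 := s.comm (a + ((0 : ℕ) : ℤ))
      rw [dNext_eq s.hom (show (ComplexShape.up ℤ).Rel (a + ((0 : ℕ) : ℤ))
          (a + ((0 + 1 : ℕ) : ℤ)) by change _ + 1 = _; push_cast; ring),
        prevD_eq s.hom (show (ComplexShape.up ℤ).Rel (a + ((0 : ℕ) : ℤ) - 1)
          (a + ((0 : ℕ) : ℤ)) by change _ + 1 = _; ring)] at h1
      have h2 : s.hom (a + ((0 : ℕ) : ℤ)) (a + ((0 : ℕ) : ℤ) - 1) = 0 :=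
        (hz' (a + ((0 : ℕ) : ℤ) - 1) (Or.inl (by push_cast; omega))).eq_of_tgt _ _
      rw [h2, zero_comp, add_zero] at h1
      simpa using h1.symm)
    (fun j => by
      have h1 := s.comm (a + ((j + 1 : ℕ) : ℤ))
      rw [dNext_eq s.hom (show (ComplexShape.up ℤ).Rel (a + ((j + 1 : ℕ) : ℤ))
          (a + ((j + 1 + 1 : ℕ) : ℤ)) by change _ + 1 = _; push_cast; ring),
        prevD_eq s.hom (show (ComplexShape.up ℤ).Rel (a + (j : ℤ))
          (a + ((j + 1 : ℕ) : ℤ)) by change _ + 1 = _; push_cast; ring)] at h1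
      have h3 : (𝟙 K : K ⟶ K).f (a + ((j + 1 : ℕ) : ℤ)) = 𝟙 _ := rfl
      have h4 : (0 : K ⟶ K).f (a + ((j + 1 : ℕ) : ℤ)) = 0 := rfl
      rw [h3, h4, add_zero] at h1
      exact (add_comm _ _).trans h1.symm)
  rw [key, one_zpow]

variable [HasZeroObject C]

omit [HasBinaryBiproducts C] [HasZeroObject C] in
lemma Bdd.shift {K : CochainComplex C ℤ} (hK : Bdd K) (n : ℤ) : Bdd (K⟦n⟧) := by
  obtain ⟨a, b, h⟩ := hK
  refine ⟨a - n, b - n, fun i hi => ?_⟩
  exact h (i + n) (by omega)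

omit [HasBinaryBiproducts C] [HasZeroObject C] in
lemma euler_shift (K : CochainComplex C ℤ) (n : ℤ) :
    euler f (K⟦n⟧) = (euler f K) ^ ((n.negOnePow : ℤˣ) : ℤ) := by
  have h1 : euler f (K⟦n⟧) = ∏ᶠ i : ℤ, (fun j : ℤ => (f (K.X j) ^ ((j.negOnePow : ℤˣ) : ℤ)) ^
      ((n.negOnePow : ℤˣ) : ℤ)) (Equiv.addRight n i) := by
    refine finprod_congr fun i => ?_
    change f (K.X (i + n)) ^ ((i.negOnePow : ℤˣ) : ℤ) = (f (K.X (i + n)) ^
      (((i + n).negOnePow : ℤˣ) : ℤ)) ^ ((n.negOnePow : ℤˣ) : ℤ)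
    rw [← zpow_mul, ← Units.val_mul, Int.negOnePow_add, mul_assoc]
    congr 2
    rw [Int.units_mul_self, mul_one]
  rw [h1, finprod_comp_equiv (Equiv.addRight n) (f := fun j : ℤ =>
    (f (K.X j) ^ ((j.negOnePow : ℤˣ) : ℤ)) ^ ((n.negOnePow : ℤˣ) : ℤ))]
  rcases Int.units_eq_one_or n.negOnePow with h2 | h2
  · rw [h2]
    simp only [Units.val_one, zpow_one]
    rfl
  · rw [h2]
    simp only [Units.val_neg, Units.val_one, zpow_neg, zpow_one]
    rw [finprod_inv_distrib]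
    rfl

omit [HasZeroObject C] in
lemma cone_term {K L : CochainComplex C ℤ} (φ : K ⟶ L) (i : ℤ) :
    Nonempty ((CochainComplex.mappingCone φ).X i ≅ K.X (i + 1) ⊞ L.X i) :=
  ⟨HomologicalComplex.homotopyCofiber.XIsoBiprod φ i (i + 1) rfl⟩

omit [HasZeroObject C] in
lemma isZero_biprod {M N : C} (hM : IsZero M) (hN : IsZero N) : IsZero (M ⊞ N) := by
  rw [IsZero.iff_id_eq_zero]
  apply biprod.hom_ext
  · exact hM.eq_of_tgt _ _
  · exact hN.eq_of_tgt _ _

omit [HasZeroObject C] in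
lemma Bdd.cone {K L : CochainComplex C ℤ} (φ : K ⟶ L) (hK : Bdd K) (hL : Bdd L) :
    Bdd (CochainComplex.mappingCone φ) := by
  obtain ⟨a, b, h⟩ := hK
  obtain ⟨a', b', h'⟩ := hL
  refine ⟨min (a - 1) a', max b b', fun i hi => ?_⟩
  obtain ⟨e⟩ := cone_term φ i
  refine (isZero_biprod (h _ ?_) (h' _ ?_)).of_iso e <;> omega

omit [HasZeroObject C] in
lemma good_cone (h : Mult G f) {K L : CochainComplex C ℤ} (φ : K ⟶ L) (hK : ∀ i, G (K.X i))
    (hL : ∀ i, G (L.X i)) (i : ℤ) : G ((CochainComplex.mappingCone φ).X i) :=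
  h.iso ⟨(cone_term φ i).some.symm⟩ (h.sum _ _ (hK _) (hL _))

omit [HasZeroObject C] in
/-- The alternating product of a cone. -/
lemma euler_cone (h : Mult G f) {K L : CochainComplex C ℤ} (φ : K ⟶ L) (hK : Bdd K)
    (hL : Bdd L) (hGK : ∀ i, G (K.X i)) (hGL : ∀ i, G (L.X i)) :
    euler f (CochainComplex.mappingCone φ) = euler f L / euler f K := by
  have h1 : ∀ i : ℤ, f ((CochainComplex.mappingCone φ).X i) ^ ((i.negOnePow : ℤˣ) : ℤ) =
      f ((K⟦(1 : ℤ)⟧).X i) ^ ((i.negOnePow : ℤˣ) : ℤ) *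
        f (L.X i) ^ ((i.negOnePow : ℤˣ) : ℤ) := by
    intro i
    rw [h.val_iso (cone_term φ i) (good_cone h φ hGK hGL i), h.val_sum _ _ (hGK _) (hGL _),
      mul_zpow]
    rfl
  rw [euler, finprod_congr h1, finprod_mul_distrib (mulSupport_fin h (hK.shift 1))
    (mulSupport_fin h hL)]
  change euler f (K⟦(1 : ℤ)⟧) * euler f L = _
  rw [euler_shift, Int.negOnePow_one, Units.val_neg, Units.val_one, zpow_neg, zpow_one,
    div_eq_mul_inv, mul_comm]

/-- **The alternating product depends on the class in the homotopy category only.** -/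
theorem euler_unique (h : Mult G f) {K L : CochainComplex C ℤ} (hK : Bdd K) (hL : Bdd L)
    (hGK : ∀ i, G (K.X i)) (hGL : ∀ i, G (L.X i)) (e : toHK K ≅ toHK L) :
    euler f K = euler f L := by
  obtain ⟨φ, hφ⟩ := (HomotopyCategory.quotient C (ComplexShape.up ℤ)).map_surjective e.hom
  have h1 := HomotopyCategory.mappingCone_triangleh_distinguished φ
  have h2 : IsZero (toHK (CochainComplex.mappingCone φ)) := by
    refine Pretriangulated.Triangle.isZero₃_of_isIso₁ _ h1 ?_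
    change IsIso ((HomotopyCategory.quotient C (ComplexShape.up ℤ)).map φ)
    rw [hφ]
    infer_instance
  have h3 := (HomotopyCategory.isZero_quotient_obj_iff _).mp h2
  have h4 := euler_contractible h (hK.cone φ hL) (good_cone h φ hGK hGL) h3
  rw [euler_cone h φ hK hL hGK hGL] at h4
  exact (div_eq_one.mp h4).symm

theorem Rep.unique (h : Mult G f) {K : HK C} {g g' : A} (h1 : Rep G f K g) (h2 : Rep G f K g') :
    g = g' := by
  obtain ⟨L, a1, a2, ⟨e⟩, rfl⟩ := h1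
  obtain ⟨L', b1, b2, ⟨e'⟩, rfl⟩ := h2
  exact euler_unique h a1 b1 a2 b2 (e.symm ≪≫ e')

omit [HasBinaryBiproducts C] [HasZeroObject C] in
lemma Rep.iso {K L : HK C} {g : A} (e : Nonempty (K ≅ L)) (h1 : Rep G f K g) : Rep G f L g := by
  obtain ⟨M, a1, a2, ⟨e'⟩, h⟩ := h1
  exact ⟨M, a1, a2, ⟨e.some.symm ≪≫ e'⟩, h⟩

omit [HasBinaryBiproducts C] [HasZeroObject C] in
lemma Rep.shift {K : HK C} {g : A} (h1 : Rep G f K g) (n : ℤ) :
    Rep G f (K⟦n⟧) (g ^ ((n.negOnePow : ℤˣ) : ℤ)) := by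
  obtain ⟨M, a1, a2, ⟨e⟩, rfl⟩ := h1
  exact ⟨M⟦n⟧, a1.shift n, fun i => a2 (i + n), ⟨(shiftFunctor (HK C) n).mapIso e ≪≫
    shiftHK M n⟩, euler_shift M n⟩

/-- The third object of a distinguished triangle. -/
theorem Rep.third (h : Mult G f) {T : Pretriangulated.Triangle (HK C)}
    (hT : T ∈ Pretriangulated.distinguishedTriangles (C := HK C)) {g₁ g₂ : A}
    (h1 : Rep G f T.obj₁ g₁) (h2 : Rep G f T.obj₂ g₂) : Rep G f T.obj₃ (g₂ / g₁) := by
  obtain ⟨K, a1, a2, ⟨e₁⟩, rfl⟩ := h1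
  obtain ⟨L, b1, b2, ⟨e₂⟩, rfl⟩ := h2
  obtain ⟨φ, hφ⟩ := (HomotopyCategory.quotient C (ComplexShape.up ℤ)).map_surjective
    (e₁.inv ≫ T.mor₁ ≫ e₂.hom : toHK K ⟶ toHK L)
  have hT' := HomotopyCategory.mappingCone_triangleh_distinguished φ
  have e := Pretriangulated.isoTriangleOfIso₁₂ T _ hT hT' e₁ e₂ (by
    change T.mor₁ ≫ e₂.hom = e₁.hom ≫ (HomotopyCategory.quotient C (ComplexShape.up ℤ)).map φ
    rw [hφ, Iso.hom_inv_id_assoc])
  exact ⟨CochainComplex.mappingCone φ, a1.cone φ b1, good_cone h φ a2 b2,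
    ⟨Pretriangulated.Triangle.π₃.mapIso e⟩, euler_cone h φ a1 b1 a2 b2⟩

theorem Rep.mid (h : Mult G f) {T : Pretriangulated.Triangle (HK C)}
    (hT : T ∈ Pretriangulated.distinguishedTriangles (C := HK C)) {g₁ g₃ : A}
    (h1 : Rep G f T.obj₁ g₁) (h3 : Rep G f T.obj₃ g₃) : Rep G f T.obj₂ (g₁ * g₃) := by
  have h2 := Rep.third h (Pretriangulated.inv_rot_of_distTriang _ hT) (h3.shift (-1)) h1
  have h4 : (((-1 : ℤ).negOnePow : ℤˣ) : ℤ) = -1 := by decide
  rw [h4, zpow_neg, zpow_one, div_inv_eq_mul] at h2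
  exact h2

theorem Rep.first (h : Mult G f) {T : Pretriangulated.Triangle (HK C)}
    (hT : T ∈ Pretriangulated.distinguishedTriangles (C := HK C)) {g₂ g₃ : A}
    (h2 : Rep G f T.obj₂ g₂) (h3 : Rep G f T.obj₃ g₃) : Rep G f T.obj₁ (g₂ / g₃) := by
  have h4 := (Rep.third h (Pretriangulated.rot_of_distTriang _ hT) h2 h3).shift (-1)
  have h5 : (((-1 : ℤ).negOnePow : ℤˣ) : ℤ) = -1 := by decide
  rw [h5, zpow_neg, zpow_one, inv_div] at h4
  exact h4.iso ⟨shiftShiftNeg T.obj₁ (1 : ℤ)⟩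

end Pool.Agent.Helper24.KZ
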