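import Mathlib

/-!
# Contractible bounded complexes and additive functions

For a function on the objects of an additive category with values in a commutative group which is
multiplicative for direct sums, the alternating product of the values on the terms of a contractible
bounded complex is one. (The category need not be idempotent complete.)
-/

set_option autoImplicit false

open CategoryTheory Limits Finset

namespace Pool.Agent.Helper24.KZ

universe v u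

variable {C : Type u} [Category.{v} C] [Preadditive C] [HasBinaryBiproducts C] {A : Type*}
  [CommGroup A]

/-- `M` is a direct summand of `N`. -/
def Smd (M N : C) : Prop := ∃ (s : M ⟶ N) (r : N ⟶ M), s ≫ r = 𝟙 M

/-- The class `G` of objects contains the zero objects and is closed under direct summands and sums,
and `f` is, on this class, a function of the isomorphism class of the object, multiplicative for
direct sums. -/
structure Mult (G : C → Prop) (f : C → A) : Prop where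
  summand : ∀ {M N : C}, Smd M N → G N → G M
  zero : ∀ M : C, IsZero M → G M
  sum : ∀ M N : C, G M → G N → G (M ⊞ N)
  val_iso : ∀ {M N : C}, Nonempty (M ≅ N) → G M → f M = f N
  val_sum : ∀ M N : C, G M → G N → f (M ⊞ N) = f M * f N

variable {G : C → Prop} {f : C → A}

omit [Preadditive C] [HasBinaryBiproducts C] in
lemma Smd.of_iso {M N : C} (e : M ≅ N) : Smd M N := ⟨e.hom, e.inv, e.hom_inv_id⟩

lemma Mult.iso (h : Mult G f) {M N : C} (e : Nonempty (M ≅ N)) (hM : G M) : G N :=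
  h.summand (Smd.of_iso e.some.symm) hM

lemma Mult.val_zero (h : Mult G f) {M : C} (hM : IsZero M) : f M = 1 := by
  have h1 : G M := h.zero M hM
  have e : Nonempty (M ⊞ M ≅ M) := by
    refine ⟨⟨biprod.fst, biprod.inl, ?_, biprod.inl_fst⟩⟩
    apply biprod.hom_ext
    · exact hM.eq_of_tgt _ _
    · exact hM.eq_of_tgt _ _
  have h2 := h.val_iso e (h.sum M M h1 h1)
  rw [h.val_sum M M h1 h1] at h2
  exact mul_eq_left.mp h2

omit [HasBinaryBiproducts C] in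
lemma mid_key {X0 X1 X2 X3 : C} (d0 : X0 ⟶ X1) (d1 : X1 ⟶ X2) (d2 : X2 ⟶ X3) (s0 : X1 ⟶ X0)
    (s1 : X2 ⟶ X1) (s2 : X3 ⟶ X2) (h0 : d0 ≫ s0 = 𝟙 _) (h1 : s0 ≫ d0 + d1 ≫ s1 = 𝟙 _)
    (h2 : s1 ≫ d1 + d2 ≫ s2 = 𝟙 _) : d2 ≫ s2 ≫ s1 ≫ s0 = s1 ≫ s0 := by
  have e2 : d2 ≫ s2 = 𝟙 _ - s1 ≫ d1 := by
    rw [← h2, add_sub_cancel_left]
  have e1 : d1 ≫ s1 = 𝟙 _ - s0 ≫ d0 := by
    rw [← h1, add_sub_cancel_left]
  have e3 : d1 ≫ s1 ≫ s0 = 0 := by
    rw [← Category.assoc, e1, Preadditive.sub_comp, Category.id_comp, Category.assoc, h0,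
      Category.comp_id, sub_self]
  rw [← Category.assoc, e2, Preadditive.sub_comp, Category.id_comp, Category.assoc, e3,
    comp_zero, sub_zero]

lemma mid {X0 X1 X2 X3 : C} (d0 : X0 ⟶ X1) (d1 : X1 ⟶ X2) (d2 : X2 ⟶ X3) (s0 : X1 ⟶ X0)
    (s1 : X2 ⟶ X1) (s2 : X3 ⟶ X2) (h0 : d0 ≫ s0 = 𝟙 _) (h1 : s0 ≫ d0 + d1 ≫ s1 = 𝟙 _)
    (h2 : s1 ≫ d1 + d2 ≫ s2 = 𝟙 _) (hd : d0 ≫ d1 = 0) :
    biprod.desc d0 s1 ≫ biprod.lift s0 d1 +
      biprod.desc 0 d2 ≫ biprod.lift (-(s2 ≫ s1 ≫ s0)) s2 = 𝟙 (X0 ⊞ X2) := by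
  have key := mid_key d0 d1 d2 s0 s1 s2 h0 h1 h2
  apply biprod.hom_ext' <;> apply biprod.hom_ext
  · simp [h0]
  · simp [hd]
  · simp [key]
  · simpa using h2

lemma mid_zero {X0 X1 X2 X3 : C} (d1 : X1 ⟶ X2) (d2 : X2 ⟶ X3) (s0 : X1 ⟶ X0)
    (hd : d1 ≫ d2 = 0) : biprod.lift s0 d1 ≫ biprod.desc 0 d2 = 0 := by
  rw [biprod.lift_desc, comp_zero, zero_add, hd]

lemma mid_zero' {X0 X2 X3 X4 : C} (d2 : X2 ⟶ X3) (d3 : X3 ⟶ X4)
    (hd : d2 ≫ d3 = 0) : biprod.desc (0 : X0 ⟶ X3) d2 ≫ d3 = 0 := by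
  apply biprod.hom_ext'
  · simp
  · simp [hd]

lemma mid_one {X0 X1 X2 : C} (d0 : X0 ⟶ X1) (d1 : X1 ⟶ X2) (s0 : X1 ⟶ X0)
    (s1 : X2 ⟶ X1) (h1 : s0 ≫ d0 + d1 ≫ s1 = 𝟙 _) :
    biprod.lift s0 d1 ≫ biprod.desc d0 s1 = 𝟙 X1 := by
  rw [biprod.lift_desc, h1]

lemma mid_last {X0 X2 X3 X4 : C} (t : X3 ⟶ X0) (d2 : X2 ⟶ X3) (s2 : X3 ⟶ X2) (d3 : X3 ⟶ X4)
    (s3 : X4 ⟶ X3) (h : s2 ≫ d2 + d3 ≫ s3 = 𝟙 _) :
    biprod.lift t s2 ≫ biprod.desc 0 d2 + d3 ≫ s3 = 𝟙 _ := by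
  rw [biprod.lift_desc, comp_zero, zero_add, h]

/-- The terms of the folded sequence. -/
noncomputable def foldX (X : ℕ → C) : ℕ → C
  | 0 => X 1
  | 1 => X 0 ⊞ X 2
  | (i + 2) => X (i + 3)

section fold

variable (X : ℕ → C) (d : ∀ i, X i ⟶ X (i + 1)) (s : ∀ i, X (i + 1) ⟶ X i)

/-- The differentials of the folded sequence. -/
noncomputable def foldD : ∀ i, foldX X i ⟶ foldX X (i + 1)
  | 0 => biprod.lift (s 0) (d 1)
  | 1 => biprod.desc 0 (d 2)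
  | (i + 2) => d (i + 3)

/-- The contraction of the folded sequence. -/
noncomputable def foldS : ∀ i, foldX X (i + 1) ⟶ foldX X i
  | 0 => biprod.desc (d 0) (s 1)
  | 1 => biprod.lift (-(s 2 ≫ s 1 ≫ s 0)) (s 2)
  | (i + 2) => s (i + 3)

end fold

/-- **Folding.** -/
theorem fold_prod (h : Mult G f) (m : ℕ) : ∀ (X : ℕ → C) (d : ∀ i, X i ⟶ X (i + 1))
    (s : ∀ i, X (i + 1) ⟶ X i), (∀ i, G (X i)) → (∀ i, m + 1 < i → IsZero (X i)) →
    (∀ i, d i ≫ d (i + 1) = 0) → d 0 ≫ s 0 = 𝟙 _ →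
    (∀ i, s i ≫ d i + d (i + 1) ≫ s (i + 1) = 𝟙 _) →
    ∏ i ∈ range (m + 2), f (X i) ^ ((-1 : ℤ) ^ i) = 1 := by
  induction m with
  | zero =>
    intro X d s hG hz hd h0 hs
    have h1 := hs 0
    have h2 : d (0 + 1) ≫ s (0 + 1) = 0 := by
      rw [(hz (0 + 1 + 1) (by omega)).eq_of_tgt (d (0 + 1)) 0, zero_comp]
    rw [h2, add_zero] at h1
    have e : Nonempty (X 0 ≅ X (0 + 1)) := ⟨⟨d 0, s 0, h0, h1⟩⟩
    rw [prod_range_succ, prod_range_succ, prod_range_zero, h.val_iso e (hG 0)]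
    simp
  | succ m ih =>
    intro X d s hG hz hd h0 hs
    have g1 : ∀ i, G (foldX X i) := by
      rintro (_ | _ | i)
      · exact hG 1
      · exact h.sum _ _ (hG 0) (hG 2)
      · exact hG _
    have g2 : ∀ i, m + 1 < i → IsZero (foldX X i) := by
      rintro (_ | _ | i) hi
      · omega
      · omega
      · exact hz (i + 3) (by omega)
    have g3 : ∀ i, foldD X d s i ≫ foldD X d s (i + 1) = 0 := by
      rintro (_ | _ | i)
      · exact mid_zero (d 1) (d 2) (s 0) (hd 1)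
      · exact mid_zero' (d 2) (d 3) (hd 2)
      · exact hd (i + 3)
    have g4 : foldD X d s 0 ≫ foldS X d s 0 = 𝟙 _ :=
      mid_one (d 0) (d 1) (s 0) (s 1) (hs 0)
    have g5 : ∀ i, foldS X d s i ≫ foldD X d s i + foldD X d s (i + 1) ≫ foldS X d s (i + 1) =
        𝟙 _ := by
      rintro (_ | _ | i)
      · exact mid (d 0) (d 1) (d 2) (s 0) (s 1) (s 2) h0 (hs 0) (hs 1) (hd 0)
      · exact mid_last (-(s 2 ≫ s 1 ≫ s 0)) (d 2) (s 2) (d 3) (s 3) (hs 2)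
      · exact hs (i + 3)
    have h2 := ih (foldX X) (foldD X d s) (foldS X d s) g1 g2 g3 g4 g5
    have h3 : ∏ i ∈ range (m + 1 + 2), f (X i) ^ ((-1 : ℤ) ^ i) =
        (∏ i ∈ range (m + 2), f (foldX X i) ^ ((-1 : ℤ) ^ i))⁻¹ := by
      rw [prod_range_succ', prod_range_succ', prod_range_succ', prod_range_succ',
        prod_range_succ']
      have h4 : ∏ i ∈ range m, f (foldX X (i + 1 + 1)) ^ ((-1 : ℤ) ^ (i + 1 + 1)) =
          (∏ i ∈ range m, f (X (i + 1 + 1 + 1)) ^ ((-1 : ℤ) ^ (i + 1 + 1 + 1)))⁻¹ := by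
        rw [← prod_inv_distrib]
        refine prod_congr rfl fun i _ => ?_
        rw [pow_succ (-1 : ℤ) (i + 1 + 1), mul_neg_one, zpow_neg, inv_inv]
        rfl
      rw [h4]
      have h5 : f (foldX X (0 + 1)) = f (X 0) * f (X 2) := h.val_sum _ _ (hG 0) (hG 2)
      have h6 : f (foldX X 0) = f (X 1) := rfl
      rw [h5, h6]
      simp only [zero_add, pow_zero, pow_one, zpow_one, zpow_neg, mul_inv_rev, inv_inv]
      have h7 : ((-1 : ℤ) ^ (1 + 1)) = 1 := by norm_num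
      rw [h7, zpow_one]
      change _ * f (X 2) * (f (X 1))⁻¹ * f (X 0) = _
      ac_rfl
    rw [h3, h2, inv_one]

end Pool.Agent.Helper24.KZ
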