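import Pool.Agent.Helper24.KZ.Rank

/-!
# Numerical formulas for complexes: two out of three
-/

set_option autoImplicit false

open CategoryTheory Limits Pool.Agent.Q282.UK

namespace Pool.Agent.Helper24.KZ

universe v u

section defs

variable {C : Type u} [Category.{v} C] [Preadditive C] {A : Type*} [CommGroup A]
  (F : C ⥤ ModuleCat.{0} ℚ) (f : C → A) (Γ : Subgroup (A × Multiplicative ℤ))

/-- The formula for the object `M`: `F(M)` has finite dimension and `(f(M), dim F(M))` is in `Γ`. -/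
def Ob (M : C) : Prop :=
  Module.Finite ℚ (F.obj M) ∧
    (f M, Multiplicative.ofAdd ((Module.finrank ℚ (F.obj M) : ℕ) : ℤ)) ∈ Γ

/-- The formula for the complex `K`. -/
def Holds [HasBinaryBiproducts C] [HasZeroObject C] [F.Additive] (K : HK C) : Prop :=
  RankOK F K ∧ ∃ g, Rep (fun _ => True) f K g ∧
    (g, Multiplicative.ofAdd (alt (hdim F K))) ∈ Γ

end defs

variable {C : Type u} [Category.{v} C] [Preadditive C] [HasBinaryBiproducts C] [HasZeroObject C]
  {A : Type*} [CommGroup A] {F : C ⥤ ModuleCat.{0} ℚ} [F.Additive] {f : C → A}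
  {Γ : Subgroup (A × Multiplicative ℤ)}

omit [HasZeroObject C] in
lemma finrank_sum (M N : C) (hM : Module.Finite ℚ (F.obj M)) (hN : Module.Finite ℚ (F.obj N)) :
    Module.Finite ℚ (F.obj (M ⊞ N)) ∧ Module.finrank ℚ (F.obj (M ⊞ N)) =
      Module.finrank ℚ (F.obj M) + Module.finrank ℚ (F.obj N) := by
  have e : F.obj (M ⊞ N) ≃ₗ[ℚ] (F.obj M × F.obj N) :=
    LinearEquiv.ofLinearMap ((F.map biprod.fst).hom.prod (F.map biprod.snd).hom)
      ((F.map biprod.inl).hom.coprod (F.map biprod.inr).hom)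
      (by
        apply LinearMap.ext
        rintro ⟨x, y⟩
        have h1 : F.map (biprod.inl : M ⟶ M ⊞ N) ≫ F.map biprod.fst = 𝟙 _ := by
          rw [← F.map_comp, biprod.inl_fst, F.map_id]
        have h2 : F.map (biprod.inr : N ⟶ M ⊞ N) ≫ F.map biprod.snd = 𝟙 _ := by
          rw [← F.map_comp, biprod.inr_snd, F.map_id]
        have h3 : F.map (biprod.inl : M ⟶ M ⊞ N) ≫ F.map biprod.snd = 0 := by
          rw [← F.map_comp, biprod.inl_snd, F.map_zero]
        have h4 : F.map (biprod.inr : N ⟶ M ⊞ N) ≫ F.map biprod.fst = 0 := by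
          rw [← F.map_comp, biprod.inr_fst, F.map_zero]
        have a1 := congrArg (fun g => g.hom x) h1
        have a2 := congrArg (fun g => g.hom y) h2
        have a3 := congrArg (fun g => g.hom x) h3
        have a4 := congrArg (fun g => g.hom y) h4
        simp only [ModuleCat.hom_comp, LinearMap.comp_apply, ModuleCat.hom_id, LinearMap.id_apply,
          ModuleCat.hom_zero, LinearMap.zero_apply] at a1 a2 a3 a4
        simp only [LinearMap.comp_apply, LinearMap.coprod_apply, LinearMap.prod_apply,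
          Function.prod_apply, map_add, LinearMap.id_apply, a1, a2, a3, a4]
        exact Prod.ext (add_zero x) (zero_add y))
      (by
        apply LinearMap.ext
        intro x
        have h1 : F.map (biprod.fst : M ⊞ N ⟶ M) ≫ F.map biprod.inl +
            F.map (biprod.snd : M ⊞ N ⟶ N) ≫ F.map biprod.inr = 𝟙 _ := by
          rw [← F.map_comp, ← F.map_comp, ← F.map_add, biprod.total, F.map_id]
        have a1 := congrArg (fun g => g.hom x) h1
        exact a1)
  refine ⟨Module.Finite.equiv e.symm, ?_⟩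
  rw [e.finrank_eq, Module.finrank_prod]

section objects

omit [Preadditive C] [HasZeroObject C] [HasBinaryBiproducts C] [F.Additive] in
lemma Ob.iso (hf : ∀ {M N : C}, Nonempty (M ≅ N) → f M = f N) {M N : C}
    (e : Nonempty (M ≅ N)) (h : Ob F f Γ M) : Ob F f Γ N := by
  have e' : Nonempty (F.obj M ≅ F.obj N) := ⟨F.mapIso e.some⟩
  refine ⟨finite_iso e' h.1, ?_⟩
  rw [← hf e, ← finrank_iso e']
  exact h.2

variable (hf : Mult (fun _ : C => True) f)

include hf

omit [HasZeroObject C] in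
lemma Ob.zero {M : C} (hM : IsZero M) : Ob F f Γ M := by
  have h1 : IsZero (F.obj M) := F.map_isZero hM
  have h2 : Subsingleton (F.obj M) := ModuleCat.subsingleton_of_isZero h1
  refine ⟨inferInstance, ?_⟩
  rw [hf.val_zero hM, Module.finrank_zero_of_subsingleton]
  exact Γ.one_mem

omit [HasZeroObject C] in
lemma Ob.sum {M N : C} (hM : Ob F f Γ M) (hN : Ob F f Γ N) : Ob F f Γ (M ⊞ N) := by
  obtain ⟨h1, h2⟩ := finrank_sum (F := F) M N hM.1 hN.1
  refine ⟨h1, ?_⟩
  rw [h2, hf.val_sum M N trivial trivial]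
  have h3 := Γ.mul_mem hM.2 hN.2
  have h4 : Multiplicative.ofAdd (((Module.finrank ℚ (F.obj M) +
      Module.finrank ℚ (F.obj N) : ℕ)) : ℤ) =
      Multiplicative.ofAdd ((Module.finrank ℚ (F.obj M) : ℕ) : ℤ) *
        Multiplicative.ofAdd ((Module.finrank ℚ (F.obj N) : ℕ) : ℤ) := by
    rw [← ofAdd_add]
    push_cast
    rfl
  rw [h4]
  exact h3

end objects

section complexes

lemma alt_eq_sum {h : ℤ → ℕ} {a b : ℤ} (hh : ∀ n : ℤ, (n < a ∨ b < n) → h n = 0) :
    alt h = ∑ n ∈ Finset.Icc a b, ((n.negOnePow : ℤˣ) : ℤ) * (h n : ℤ) := by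
  refine finsum_eq_sum_of_support_subset _ fun n hn => ?_
  rw [Finset.coe_Icc, Set.mem_Icc]
  by_contra h1
  apply hn
  change _ * (h n : ℤ) = 0
  rw [hh n (by omega)]
  simp

variable (hf : Mult (fun _ : C => True) f)

include hf

/-- Complexes whose terms satisfy the formula. -/
theorem Holds.of_terms {K : CochainComplex C ℤ} (hb : Bdd K) (hK : ∀ i, Ob F f Γ (K.X i)) :
    Holds F f Γ (toHK K) := by
  obtain ⟨h1, h2⟩ := alt_terms (F := F) hb fun i => (hK i).1
  refine ⟨h1, euler f K, ⟨K, hb, fun _ => trivial, ⟨Iso.refl _⟩, rfl⟩, ?_⟩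
  rw [h2]
  obtain ⟨a, b, hz⟩ := hb
  have h3 : euler f K = ∏ i ∈ Finset.Icc a b, f (K.X i) ^ ((i.negOnePow : ℤˣ) : ℤ) :=
    finprod_eq_prod_of_mulSupport_subset _ (mulSupport_sub hf hz)
  have h4 := alt_eq_sum (h := fun n => Module.finrank ℚ (F.obj (K.X n))) (a := a) (b := b)
    (fun n hn => by
      have h5 : IsZero (F.obj (K.X n)) := F.map_isZero (hz n hn)
      have h6 : Subsingleton (F.obj (K.X n)) := ModuleCat.subsingleton_of_isZero h5
      exact Module.finrank_zero_of_subsingleton)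
  rw [h3, h4]
  have h5 : (∏ i ∈ Finset.Icc a b, f (K.X i) ^ ((i.negOnePow : ℤˣ) : ℤ),
      Multiplicative.ofAdd (∑ n ∈ Finset.Icc a b, ((n.negOnePow : ℤˣ) : ℤ) *
        ((Module.finrank ℚ (F.obj (K.X n)) : ℕ) : ℤ))) =
      ∏ i ∈ Finset.Icc a b, (f (K.X i), Multiplicative.ofAdd
        ((Module.finrank ℚ (F.obj (K.X i)) : ℕ) : ℤ)) ^ ((i.negOnePow : ℤˣ) : ℤ) := by
    apply Prod.ext
    · rw [Prod.fst_prod]
      rfl
    · rw [Prod.snd_prod]
      change Multiplicative.ofAdd (∑ n ∈ Finset.Icc a b, ((n.negOnePow : ℤˣ) : ℤ) *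
        ((Module.finrank ℚ (F.obj (K.X n)) : ℕ) : ℤ)) = _
      rw [ofAdd_sum]
      refine Finset.prod_congr rfl fun i _ => ?_
      change Multiplicative.ofAdd (((i.negOnePow : ℤˣ) : ℤ) *
        ((Module.finrank ℚ (F.obj (K.X i)) : ℕ) : ℤ)) = (Multiplicative.ofAdd
          ((Module.finrank ℚ (F.obj (K.X i)) : ℕ) : ℤ)) ^ ((i.negOnePow : ℤˣ) : ℤ)
      rw [← ofAdd_zsmul, smul_eq_mul]
  rw [h5]
  exact Γ.prod_mem fun i _ => Γ.zpow_mem (hK i).2 _

omit hf in
lemma Holds.iso {K L : HK C} (e : Nonempty (K ≅ L)) (h : Holds F f Γ K) : Holds F f Γ L := by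
  obtain ⟨h1, g, h2, h3⟩ := h
  refine ⟨h1.iso e, g, h2.iso e, ?_⟩
  rw [← hdim_iso e]
  exact h3

omit hf in
lemma Holds.shift {K : HK C} (h : Holds F f Γ K) (n : ℤ) : Holds F f Γ (K⟦n⟧) := by
  obtain ⟨h1, g, h2, h3⟩ := h
  refine ⟨h1.shift n, _, h2.shift n, ?_⟩
  rw [alt_hdim_shift]
  have h4 := Γ.zpow_mem h3 ((n.negOnePow : ℤˣ) : ℤ)
  have h5 : Multiplicative.ofAdd (((n.negOnePow : ℤˣ) : ℤ) * alt (hdim F K)) =
      (Multiplicative.ofAdd (alt (hdim F K))) ^ ((n.negOnePow : ℤˣ) : ℤ) := by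
    rw [← ofAdd_zsmul, smul_eq_mul]
  rw [h5]
  exact h4

theorem Holds.mid {T : Pretriangulated.Triangle (HK C)}
    (hT : T ∈ Pretriangulated.distinguishedTriangles (C := HK C)) (h1 : Holds F f Γ T.obj₁)
    (h3 : Holds F f Γ T.obj₃) : Holds F f Γ T.obj₂ := by
  obtain ⟨a1, g₁, a2, a3⟩ := h1
  obtain ⟨b1, g₃, b2, b3⟩ := h3
  have h2 := RankOK.mid hT a1 b1
  refine ⟨h2, _, Rep.mid hf hT a2 b2, ?_⟩
  rw [alt_triangle hT a1 h2 b1, ofAdd_add]
  exact Γ.mul_mem a3 b3

theorem Holds.third {T : Pretriangulated.Triangle (HK C)}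
    (hT : T ∈ Pretriangulated.distinguishedTriangles (C := HK C)) (h1 : Holds F f Γ T.obj₁)
    (h2 : Holds F f Γ T.obj₂) : Holds F f Γ T.obj₃ :=
  Holds.mid hf (Pretriangulated.rot_of_distTriang _ hT) h2 (h1.shift 1)

theorem Holds.first {T : Pretriangulated.Triangle (HK C)}
    (hT : T ∈ Pretriangulated.distinguishedTriangles (C := HK C)) (h2 : Holds F f Γ T.obj₂)
    (h3 : Holds F f Γ T.obj₃) : Holds F f Γ T.obj₁ :=
  Holds.mid hf (Pretriangulated.inv_rot_of_distTriang _ hT) (h3.shift (-1)) h2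

/-- From a complex concentrated in degree zero to the object. -/
theorem Holds.to_object {M : C} (h : Holds F f Γ (inZero M)) : Ob F f Γ M := by
  obtain ⟨h1, g, h2, h3⟩ := h
  have hM : Module.Finite ℚ (F.obj M) := finite_iso (coh_single F M) (h1.1 0)
  let K := (HomologicalComplex.single C (ComplexShape.up ℤ) 0).obj M
  have e0 : K.X 0 ≅ M := HomologicalComplex.singleObjXSelf (ComplexShape.up ℤ) 0 M
  have hz : ∀ i : ℤ, (i < 0 ∨ 0 < i) → IsZero (K.X i) := fun i hi =>
    HomologicalComplex.isZero_single_obj_X (ComplexShape.up ℤ) 0 M i (by omega)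
  have hb : Bdd K := ⟨0, 0, hz⟩
  have hr : Rep (fun _ => True) f (inZero M) (f M) := by
    refine ⟨K, hb, fun _ => trivial, ⟨Iso.refl _⟩, ?_⟩
    have h4 : euler f K = ∏ i ∈ Finset.Icc (0 : ℤ) 0, f (K.X i) ^ ((i.negOnePow : ℤˣ) : ℤ) :=
      finprod_eq_prod_of_mulSupport_subset _ (mulSupport_sub hf hz)
    rw [h4, Finset.Icc_self, Finset.prod_singleton, Int.negOnePow_zero, Units.val_one, zpow_one]
    exact hf.val_iso ⟨e0⟩ trivial
  have hg : g = f M := Rep.unique hf h2 hr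
  refine ⟨hM, ?_⟩
  have hfin : ∀ i, Module.Finite ℚ (F.obj (K.X i)) := by
    intro i
    rcases eq_or_ne i 0 with h5 | h5
    · rw [h5]
      exact finite_iso ⟨F.mapIso e0.symm⟩ hM
    · have h6 : IsZero (F.obj (K.X i)) := F.map_isZero (hz i (by omega))
      have h7 : Subsingleton (F.obj (K.X i)) := ModuleCat.subsingleton_of_isZero h6
      infer_instance
  have h4 := (alt_terms (F := F) hb hfin).2
  have h5 := alt_eq_sum (h := fun n => Module.finrank ℚ (F.obj (K.X n))) (a := 0) (b := 0)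
    (fun n hn => by
      have h5 : IsZero (F.obj (K.X n)) := F.map_isZero (hz n hn)
      have h6 : Subsingleton (F.obj (K.X n)) := ModuleCat.subsingleton_of_isZero h5
      exact Module.finrank_zero_of_subsingleton)
  rw [Finset.Icc_self, Finset.sum_singleton, Int.negOnePow_zero, Units.val_one, one_mul,
    finrank_iso ⟨F.mapIso e0⟩] at h5
  have h6 : alt (hdim F (inZero M)) = ((Module.finrank ℚ (F.obj M) : ℕ) : ℤ) := h4.trans h5
  rw [h6, hg] at h3
  exact h3

lemma Holds.of_object {M : C} (h : Ob F f Γ M) : Holds F f Γ (inZero M) := by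
  let K := (HomologicalComplex.single C (ComplexShape.up ℤ) 0).obj M
  have hz : ∀ i : ℤ, (i < 0 ∨ 0 < i) → IsZero (K.X i) := fun i hi =>
    HomologicalComplex.isZero_single_obj_X (ComplexShape.up ℤ) 0 M i (by omega)
  refine Holds.of_terms hf (K := K) ⟨0, 0, hz⟩ fun i => ?_
  rcases eq_or_ne i 0 with h5 | h5
  · rw [h5]
    exact Ob.iso (fun e => hf.val_iso e trivial)
      ⟨(HomologicalComplex.singleObjXSelf (ComplexShape.up ℤ) 0 M).symm⟩ h
  · exact Ob.zero hf (hz i (by omega))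

end complexes

end Pool.Agent.Helper24.KZ
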