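import Pool.Agent.Helper24.KZ.Sch

/-!
# The numerical formulas and germs of meromorphic functions
-/

set_option autoImplicit false

open CategoryTheory Limits AlgebraicGeometry Pool.Agent.Y116.UV Pool.Agent.Z125.UN
  Pool.Agent.Q282.UM Pool.Agent.Q282.UK

namespace Pool.Agent.Helper24.KZ

universe v u

/-! ### Germs at infinity -/

/-- The germs at the right end of the complex plane. -/
abbrev Gm : Type := Filter.Germ (Filter.comap Complex.re Filter.atTop) ℂ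

lemma germ_eq {g F : ℂ → ℂ} : ((g : Gm) = (F : Gm)) ↔ ∃ σ : ℝ, ∀ s : ℂ, σ < s.re → g s = F s := by
  rw [Filter.Germ.coe_eq]
  unfold Filter.EventuallyEq
  rw [(Filter.atTop_basis_Ioi.comap Complex.re).eventually_iff]
  constructor
  · rintro ⟨σ, -, h⟩
    exact ⟨σ, fun s hs => h hs⟩
  · rintro ⟨σ, h⟩
    exact ⟨σ, trivial, fun s hs => h s hs⟩

lemma germ_inv {g : Gmˣ} {F : ℂ → ℂ} (h : (F : Gm) = g) :
    ((F⁻¹ : ℂ → ℂ) : Gm) = ((g⁻¹ : Gmˣ) : Gm) := by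
  obtain ⟨G, hG⟩ := Quotient.exists_rep ((g⁻¹ : Gmˣ) : Gm)
  have h1 : ((F * G : ℂ → ℂ) : Gm) = ((1 : ℂ → ℂ) : Gm) := by
    rw [Filter.Germ.coe_mul, h]
    have h2 : (G : Gm) = ((g⁻¹ : Gmˣ) : Gm) := hG
    rw [h2, Units.mul_inv]
    rfl
  rw [germ_eq] at h1
  obtain ⟨σ, h1⟩ := h1
  rw [← hG]
  change ((F⁻¹ : ℂ → ℂ) : Gm) = (G : Gm)
  rw [germ_eq]
  refine ⟨σ, fun s hs => ?_⟩
  exact inv_eq_of_mul_eq_one_right (h1 s hs)

/-- The pairs of a germ `g` and a number `n` such that `g` has a meromorphic continuation to a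
neighbourhood of `[0, ∞)` of order `n` at `0`. -/
def Gam : Subgroup (Gmˣ × Multiplicative ℤ) where
  carrier := {p | ∃ F : ℂ → ℂ, (F : Gm) = (p.1 : Gm) ∧ (∀ x : ℝ, 0 ≤ x → MeromorphicAt F x) ∧
    meromorphicOrderAt F 0 = ((Multiplicative.toAdd p.2 : ℤ) : WithTop ℤ)}
  mul_mem' := by
    rintro ⟨g, n⟩ ⟨g', n'⟩ ⟨F, h1, h2, h3⟩ ⟨F', h1', h2', h3'⟩
    refine ⟨F * F', ?_, fun x hx => (h2 x hx).mul (h2' x hx), ?_⟩
    · change ((F * F' : ℂ → ℂ) : Gm) = ((g * g' : Gmˣ) : Gm)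
      rw [Filter.Germ.coe_mul, h1, h1']
      rfl
    · have h4 := h2 0 le_rfl
      have h5 := h2' 0 le_rfl
      rw [Complex.ofReal_zero] at h4 h5
      rw [meromorphicOrderAt_mul h4 h5, h3, h3']
      change _ = ((Multiplicative.toAdd (n * n') : ℤ) : WithTop ℤ)
      rw [toAdd_mul]
      push_cast
      rfl
  one_mem' := by
    refine ⟨1, rfl, fun x _ => MeromorphicAt.const 1 _, ?_⟩
    change meromorphicOrderAt (fun _ => (1 : ℂ)) 0 = _
    rw [meromorphicOrderAt_const]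
    simp
  inv_mem' := by
    rintro ⟨g, n⟩ ⟨F, h1, h2, h3⟩
    refine ⟨F⁻¹, ?_, fun x hx => (h2 x hx).inv, ?_⟩
    · change ((F⁻¹ : ℂ → ℂ) : Gm) = ((g⁻¹ : Gmˣ) : Gm)
      exact germ_inv h1
    · rw [meromorphicOrderAt_inv, h3]
      change _ = ((Multiplicative.toAdd (n⁻¹) : ℤ) : WithTop ℤ)
      rw [toAdd_inv]
      push_cast
      rfl

/-! ### The `L`-functions as germs -/

section germs

variable {k : Type} [Field k] {C : Type u} [Category.{v} C] [Preadditive C] [HasZeroObject C]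
  [HasBinaryBiproducts C] [HasFiniteBiproducts C] {D : MotivesL k C} (hD : IsMotivesL D)

/-- The germ of the `L`-function. -/
noncomputable def fL (M : C) : Gmˣ where
  val := (D.L M : Gm)
  inv := ((D.L M)⁻¹ : ℂ → ℂ)
  val_inv := by
    change ((D.L M * (D.L M)⁻¹ : ℂ → ℂ) : Gm) = ((1 : ℂ → ℂ) : Gm)
    rw [germ_eq]
    obtain ⟨σ, h⟩ := hD.converges M
    exact ⟨σ, fun s hs => mul_inv_cancel₀ (h s hs).2⟩
  inv_val := by
    change (((D.L M)⁻¹ * D.L M : ℂ → ℂ) : Gm) = ((1 : ℂ → ℂ) : Gm)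
    rw [germ_eq]
    obtain ⟨σ, h⟩ := hD.converges M
    exact ⟨σ, fun s hs => inv_mul_cancel₀ (h s hs).2⟩

lemma fL_mult : Mult (fun _ : C => True) (fL hD) where
  summand _ _ := trivial
  zero _ _ := trivial
  sum _ _ _ _ := trivial
  val_iso {M N} e _ := by
    have h1 : D.L M = D.L N := by
      funext s
      unfold MotivesL.L
      refine tprod_congr fun v => ?_
      rw [hD.factor_iso v M N e]
    apply Units.ext
    change (D.L M : Gm) = (D.L N : Gm)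
    rw [h1]
  val_sum M N _ _ := by
    apply Units.ext
    change (D.L (M ⊞ N) : Gm) = ((D.L M * D.L N : ℂ → ℂ) : Gm)
    rw [germ_eq]
    obtain ⟨σ, h⟩ := hD.converges M
    obtain ⟨τ, h'⟩ := hD.converges N
    refine ⟨max σ τ, fun s hs => ?_⟩
    have h1 := (h s (lt_of_le_of_lt (le_max_left _ _) hs)).1
    have h2 := (h' s (lt_of_le_of_lt (le_max_right _ _) hs)).1
    change D.L (M ⊞ N) s = D.L M s * D.L N s
    unfold MotivesL.L
    rw [← h1.tprod_mul h2]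
    refine tprod_congr fun v => ?_
    rw [hD.factor_sum, Polynomial.eval_mul, mul_inv]

lemma ob_iff (M : C) : Ob D.cyc (fL hD) Gam M ↔ BB D M := by
  constructor
  · rintro ⟨h1, F, h2, h3, h4⟩
    exact ⟨F, ⟨germ_eq.mp h2, h3⟩, h1, h4⟩
  · rintro ⟨F, ⟨h2, h3⟩, h1, h4⟩
    exact ⟨h1, F, germ_eq.mpr h2, h3, h4⟩

lemma fL_zpow (M : C) (ε : ℤˣ) :
    ((fL hD M ^ (ε : ℤ) : Gmˣ) : Gm) = ((fun s => D.L M s ^ (ε : ℤ) : ℂ → ℂ) : Gm) := by
  rcases Int.units_eq_one_or ε with rfl | rfl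
  · simp only [Units.val_one, zpow_one]
    rfl
  · simp only [Units.val_neg, Units.val_one, zpow_neg, zpow_one]
    rfl

lemma euler_germ {L : CochainComplex C ℤ} {a b : ℤ}
    (hz : ∀ i, (i < a ∨ b < i) → IsZero (L.X i)) :
    ((euler (fL hD) L : Gmˣ) : Gm) =
      ((fun s => ∏ i ∈ Finset.Icc a b, D.L (L.X i) s ^ ((i.negOnePow : ℤˣ) : ℤ) : ℂ → ℂ) : Gm) := by
  have h3 : euler (fL hD) L = ∏ i ∈ Finset.Icc a b, fL hD (L.X i) ^ ((i.negOnePow : ℤˣ) : ℤ) :=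
    finprod_eq_prod_of_mulSupport_subset _ (mulSupport_sub (fL_mult hD) hz)
  rw [h3, Units.coe_prod]
  have h4 : (fun s => ∏ i ∈ Finset.Icc a b, D.L (L.X i) s ^ ((i.negOnePow : ℤˣ) : ℤ) : ℂ → ℂ) =
      ∏ i ∈ Finset.Icc a b, (fun s => D.L (L.X i) s ^ ((i.negOnePow : ℤˣ) : ℤ) : ℂ → ℂ) := by
    funext s
    rw [Finset.prod_apply]
  rw [h4]
  change _ = Filter.Germ.coeMulHom (Filter.comap Complex.re Filter.atTop) (∏ i ∈ Finset.Icc a b,
    (fun s => D.L (L.X i) s ^ ((i.negOnePow : ℤˣ) : ℤ) : ℂ → ℂ))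
  rw [map_prod]
  refine Finset.prod_congr rfl fun i _ => ?_
  exact fL_zpow hD _ _

omit hD [HasFiniteBiproducts C] in
lemma hcyc_iso (n : ℤ) (K : HK C) : Nonempty (HC D.cyc n K ≅ Hcyc D n K) := by
  have e1 : onHK D.cyc (K⟦n⟧) ≅ (onHK D.cyc K)⟦n⟧ :=
    ((D.cyc.mapHomotopyCategory (ComplexShape.up ℤ)).commShiftIso n).app K
  exact ⟨(HomotopyCategory.homologyFunctor (ModuleCat.{0} ℚ) (ComplexShape.up ℤ) 0).mapIso e1 ≪≫
    ((HomotopyCategory.homologyFunctor (ModuleCat.{0} ℚ) (ComplexShape.up ℤ) 0).isoShift n).app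
      (onHK D.cyc K)⟩

omit hD [HasFiniteBiproducts C] in
lemma hcyc_finrank (K : HK C) :
    (fun n => Module.finrank ℚ (Hcyc D n K)) = hdim D.cyc K :=
  funext fun n => (finrank_iso (hcyc_iso n K)).symm

omit hD [HasFiniteBiproducts C] in
lemma rankOK_iff (K : HK C) : RankOK D.cyc K ↔ ((∀ n, Module.Finite ℚ (Hcyc D n K)) ∧
    (Function.support fun n => Module.finrank ℚ (Hcyc D n K)).Finite) := by
  rw [hcyc_finrank]
  refine and_congr (forall_congr' fun n => ⟨fun h => finite_iso (hcyc_iso n K) h, fun h => ?_⟩)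
    Iff.rfl
  exact finite_iso ⟨(hcyc_iso n K).some.symm⟩ h

omit hD [HasFiniteBiproducts C] in
lemma alt_hcyc (K : HK C) :
    (∑ᶠ n : ℤ, ((n.negOnePow : ℤˣ) : ℤ) * (Module.finrank ℚ (Hcyc D n K) : ℤ)) =
      alt (hdim D.cyc K) := by
  rw [← hcyc_finrank]
  rfl

lemma holds_iff (K : HK C) : Holds D.cyc (fL hD) Gam K ↔ Formula D K := by
  unfold Formula
  rw [alt_hcyc, ← and_assoc, ← rankOK_iff]
  constructor
  · rintro ⟨h1, g, ⟨L, ⟨a, b, hz⟩, -, h2, rfl⟩, F, h3, h4, h5⟩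
    refine ⟨h1, L, a, b, F, hz, h2, ⟨?_, h4⟩, h5⟩
    rw [← germ_eq, h3]
    exact euler_germ hD hz
  · rintro ⟨h1, L, a, b, F, hz, h2, ⟨h3, h4⟩, h5⟩
    refine ⟨h1, _, ⟨L, ⟨a, b, hz⟩, fun _ => trivial, h2, rfl⟩, F, ?_, h4, h5⟩
    change (F : Gm) = ((euler (fL hD) L : Gmˣ) : Gm)
    rw [euler_germ hD hz, germ_eq]
    exact h3

lemma low_ob (X : Sch k) (hX : IsSmoothProjective X) (n : ℤ) (hn : n ≤ 0) :
    Ob D.cyc (fL hD) Gam ((D.tw n).obj (D.h X)) := by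
  rw [ob_iff]
  obtain ⟨h1, h2⟩ := hD.low X hX n hn
  have h3 : Subsingleton (D.cyc.obj ((D.tw n).obj (D.h X))) := ModuleCat.subsingleton_of_isZero h1
  refine ⟨fun _ => 1, ⟨⟨0, fun s _ => ?_⟩, fun x _ => MeromorphicAt.const 1 _⟩, inferInstance, ?_⟩
  · unfold MotivesL.L
    simp only [h2, Polynomial.eval_one, inv_one, tprod_one]
  · rw [meromorphicOrderAt_const, Module.finrank_zero_of_subsingleton]
    simp

end germs

end Pool.Agent.Helper24.KZ
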