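import Pool.Agent.Helper24.KZ.Euler

/-!
# Euler characteristics of complexes of vector spaces given by an additive functor
-/

set_option autoImplicit false

open CategoryTheory Limits Pool.Agent.Q282.UK

namespace Pool.Agent.Helper24.KZ

universe v u

/-! ### Alternating sums -/

/-- `∑ (-1)^n h n` -/
noncomputable def alt (h : ℤ → ℕ) : ℤ := ∑ᶠ n : ℤ, ((n.negOnePow : ℤˣ) : ℤ) * (h n : ℤ)

/-- `h` has finite support -/
def FinSupp (h : ℤ → ℕ) : Prop := h.support.Finite

lemma FinSupp.mul {h : ℤ → ℕ} (hh : FinSupp h) :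
    Function.HasFiniteSupport (fun n : ℤ => ((n.negOnePow : ℤˣ) : ℤ) * (h n : ℤ)) := by
  refine Set.Finite.subset hh fun n hn h0 => hn ?_
  change _ * (h n : ℤ) = 0
  rw [h0]
  simp

lemma FinSupp.of_le {h h' : ℤ → ℕ} (hh : FinSupp h) (hle : ∀ n, h' n ≤ h n) : FinSupp h' := by
  refine Set.Finite.subset hh fun n hn h0 => hn ?_
  have := hle n
  omega

lemma alt_add {g h : ℤ → ℕ} (hg : FinSupp g) (hh : FinSupp h) :
    alt (fun n => g n + h n) = alt g + alt h := by
  unfold alt
  rw [← finsum_add_distrib hg.mul hh.mul]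
  refine finsum_congr fun n => ?_
  push_cast
  ring

lemma alt_shift (h : ℤ → ℕ) (m : ℤ) :
    alt (fun n => h (n + m)) = ((m.negOnePow : ℤˣ) : ℤ) * alt h := by
  have h1 : alt (fun n => h (n + m)) = ∑ᶠ n : ℤ, (fun j : ℤ => ((m.negOnePow : ℤˣ) : ℤ) *
      (((j.negOnePow : ℤˣ) : ℤ) * (h j : ℤ))) (Equiv.addRight m n) := by
    refine finsum_congr fun n => ?_
    change ((n.negOnePow : ℤˣ) : ℤ) * (h (n + m) : ℤ) = ((m.negOnePow : ℤˣ) : ℤ) *
      ((((n + m).negOnePow : ℤˣ) : ℤ) * (h (n + m) : ℤ))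
    rw [← mul_assoc, ← Units.val_mul, Int.negOnePow_add, mul_left_comm, Int.units_mul_self,
      mul_one]
  rw [h1, finsum_comp_equiv (Equiv.addRight m) (f := fun j : ℤ => ((m.negOnePow : ℤˣ) : ℤ) *
      (((j.negOnePow : ℤˣ) : ℤ) * (h j : ℤ)))]
  rcases Int.units_eq_one_or m.negOnePow with h2 | h2
  · rw [h2]
    simp only [Units.val_one, one_mul]
    rfl
  · rw [h2]
    simp only [Units.val_neg, Units.val_one, neg_mul, one_mul]
    rw [finsum_neg_distrib]
    rfl

/-- Telescoping. -/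
lemma alt_two {h : ℤ → ℕ} (hh : FinSupp h) : alt (fun n => h n + h (n - 1)) = 0 := by
  have h1 : FinSupp fun n => h (n - 1) := by
    have h2 : (fun n => h (n - 1)).support = (Equiv.addRight (1 : ℤ)) '' h.support := by
      ext n
      simp only [Function.mem_support, Set.mem_image, Equiv.coe_addRight]
      constructor
      · intro h3
        exact ⟨n - 1, h3, by ring⟩
      · rintro ⟨m, h3, rfl⟩
        simpa using h3
    unfold FinSupp
    rw [h2]
    exact hh.image _
  rw [alt_add hh h1, show (fun n => h (n - 1)) = fun n => h (n + (-1)) from rfl, alt_shift h (-1)]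
  have h3 : (((-1 : ℤ).negOnePow : ℤˣ) : ℤ) = -1 := by decide
  rw [h3]
  ring

/-! ### Exact sequences -/

/-- the rank of a map -/
noncomputable def rk {M N : ModuleCat.{0} ℚ} (f : M ⟶ N) : ℕ :=
  Module.finrank ℚ (LinearMap.range f.hom)

lemma finite_mid {S : ShortComplex (ModuleCat.{0} ℚ)} (hS : S.Exact)
    (h1 : Module.Finite ℚ S.X₁) (h3 : Module.Finite ℚ S.X₃) : Module.Finite ℚ S.X₂ := by
  have h2 : Module.Finite ℚ (LinearMap.ker S.g.hom) := by
    rw [← hS.moduleCat_range_eq_ker]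
    infer_instance
  have h4 : Module.Finite ℚ (S.X₂ ⧸ LinearMap.ker S.g.hom) :=
    Module.Finite.equiv S.g.hom.quotKerEquivRange.symm
  exact Module.Finite.of_submodule_quotient (LinearMap.ker S.g.hom)

lemma rank_mid {S : ShortComplex (ModuleCat.{0} ℚ)} (hS : S.Exact)
    (h2 : Module.Finite ℚ S.X₂) : Module.finrank ℚ S.X₂ = rk S.f + rk S.g := by
  have h := LinearMap.finrank_range_add_finrank_ker S.g.hom
  rw [← hS.moduleCat_range_eq_ker] at h
  unfold rk
  omega

lemma finite_iso {M N : ModuleCat.{0} ℚ} (e : Nonempty (M ≅ N)) (h : Module.Finite ℚ M) :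
    Module.Finite ℚ N := Module.Finite.equiv e.some.toLinearEquiv

lemma finrank_iso {M N : ModuleCat.{0} ℚ} (e : Nonempty (M ≅ N)) :
    Module.finrank ℚ M = Module.finrank ℚ N := e.some.toLinearEquiv.finrank_eq

/-! ### The cohomology of `F(K)` -/

variable {C : Type u} [Category.{v} C] [Preadditive C] [HasBinaryBiproducts C] [HasZeroObject C]
  (F : C ⥤ ModuleCat.{0} ℚ) [F.Additive]

/-- The vector space `Hⁿ(F(K))`. -/
noncomputable abbrev HC (n : ℤ) (K : HK C) : ModuleCat.{0} ℚ := coh F n K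

/-- The dimension of `Hⁿ(F(K))`. -/
noncomputable def hdim (K : HK C) (n : ℤ) : ℕ := Module.finrank ℚ (HC F n K)

/-- All `Hⁿ(F(K))` have finite dimension, and almost all are zero. -/
def RankOK (K : HK C) : Prop :=
  (∀ n, Module.Finite ℚ (HC F n K)) ∧ FinSupp (hdim F K)

variable {F}

lemma RankOK.iso {K L : HK C} (e : Nonempty (K ≅ L)) (h : RankOK F K) : RankOK F L := by
  refine ⟨fun n => finite_iso (coh_iso F n e) (h.1 n), ?_⟩
  refine h.2.of_le fun n => ?_
  exact (finrank_iso (coh_iso F n e)).ge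

lemma hdim_iso {K L : HK C} (e : Nonempty (K ≅ L)) : hdim F K = hdim F L :=
  funext fun n => finrank_iso (coh_iso F n e)

lemma hdim_shift (K : HK C) (m : ℤ) : hdim F (K⟦m⟧) = fun n => hdim F K (n + m) := by
  funext n
  rw [add_comm]
  exact finrank_iso (coh_shift F m n K)

lemma RankOK.shift {K : HK C} (h : RankOK F K) (m : ℤ) : RankOK F (K⟦m⟧) := by
  refine ⟨fun n => finite_iso ⟨(coh_shift F m n K).some.symm⟩ (h.1 (m + n)), ?_⟩
  rw [hdim_shift]
  have h2 : (fun n => hdim F K (n + m)).support ⊆ (Equiv.addRight (-m)) '' (hdim F K).support := by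
    intro n hn
    exact ⟨n + m, hn, by simp⟩
  exact Set.Finite.subset (h.2.image _) h2

lemma alt_hdim_shift (K : HK C) (m : ℤ) :
    alt (hdim F (K⟦m⟧)) = ((m.negOnePow : ℤˣ) : ℤ) * alt (hdim F K) := by
  rw [hdim_shift, alt_shift]

section triangle

variable {T : Pretriangulated.Triangle (HK C)}
  (hT : T ∈ Pretriangulated.distinguishedTriangles (C := HK C))

include hT

/-- Ranks in the long exact sequence of a triangle. -/
lemma ranks (h1 : ∀ n, Module.Finite ℚ (HC F n T.obj₁)) (h2 : ∀ n, Module.Finite ℚ (HC F n T.obj₂))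
    (h3 : ∀ n, Module.Finite ℚ (HC F n T.obj₃)) : ∃ r s t : ℤ → ℕ, ∀ n,
      hdim F T.obj₁ n = r n + t (n - 1) ∧ hdim F T.obj₂ n = r n + s n ∧
      hdim F T.obj₃ n = s n + t n := by
  let _ := Functor.ShiftSequence.tautological (coh0 F) ℤ
  let r : ℤ → ℕ := fun n => rk (((coh0 F).shift n).map T.mor₁)
  let s : ℤ → ℕ := fun n => rk (((coh0 F).shift n).map T.mor₂)
  let t : ℤ → ℕ := fun n => rk ((coh0 F).homologySequenceδ T n (n + 1) rfl)
  refine ⟨r, s, t, fun n => ⟨?_, ?_, ?_⟩⟩
  · have e := rank_mid ((coh0 F).homologySequence_exact₁ T hT (n - 1) n (by ring)) (h1 n)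
    change hdim F T.obj₁ n = _ at e
    rw [e, add_comm]
    change r n + _ = r n + _
    congr 1
    change rk ((coh0 F).homologySequenceδ T (n - 1) n (by ring)) =
      rk ((coh0 F).homologySequenceδ T (n - 1) (n - 1 + 1) rfl)
    congr! 2
    ring_nf
  · exact rank_mid ((coh0 F).homologySequence_exact₂ T hT n) (h2 n)
  · exact rank_mid ((coh0 F).homologySequence_exact₃ T hT n (n + 1) rfl) (h3 n)

theorem alt_triangle (h1 : RankOK F T.obj₁) (h2 : RankOK F T.obj₂) (h3 : RankOK F T.obj₃) :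
    alt (hdim F T.obj₂) = alt (hdim F T.obj₁) + alt (hdim F T.obj₃) := by
  obtain ⟨r, s, t, h⟩ := ranks hT h1.1 h2.1 h3.1
  have fr : FinSupp r := h2.2.of_le fun n => by have := (h n).2.1; omega
  have fs : FinSupp s := h2.2.of_le fun n => by have := (h n).2.1; omega
  have ft : FinSupp t := h3.2.of_le fun n => by have := (h n).2.2; omega
  have ft' : FinSupp fun n => t (n - 1) := h1.2.of_le fun n => by have := (h n).1; omega
  have e1 : hdim F T.obj₁ = fun n => r n + t (n - 1) := funext fun n => (h n).1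
  have e2 : hdim F T.obj₂ = fun n => r n + s n := funext fun n => (h n).2.1
  have e3 : hdim F T.obj₃ = fun n => s n + t n := funext fun n => (h n).2.2
  have e4 := alt_two ft
  rw [alt_add ft ft'] at e4
  rw [e1, e2, e3, alt_add fr fs, alt_add fr ft', alt_add fs ft]
  linarith

theorem RankOK.mid (h1 : RankOK F T.obj₁) (h3 : RankOK F T.obj₃) : RankOK F T.obj₂ := by
  have hf : ∀ n, Module.Finite ℚ (HC F n T.obj₂) := by
    let _ := Functor.ShiftSequence.tautological (coh0 F) ℤ
    intro n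
    exact finite_mid ((coh0 F).homologySequence_exact₂ T hT n) (h1.1 n) (h3.1 n)
  refine ⟨hf, ?_⟩
  obtain ⟨r, s, t, h⟩ := ranks hT h1.1 hf h3.1
  refine Set.Finite.subset (h1.2.union h3.2) fun n hn => ?_
  rcases Nat.eq_zero_or_pos (hdim F T.obj₁ n) with h4 | h4
  · right
    intro h5
    apply hn
    have := h n
    omega
  · left
    exact h4.ne'

theorem RankOK.third (h1 : RankOK F T.obj₁) (h2 : RankOK F T.obj₂) : RankOK F T.obj₃ :=
  RankOK.mid (Pretriangulated.rot_of_distTriang _ hT) h2 (h1.shift 1)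

theorem RankOK.first (h2 : RankOK F T.obj₂) (h3 : RankOK F T.obj₃) : RankOK F T.obj₁ :=
  RankOK.mid (Pretriangulated.inv_rot_of_distTriang _ hT) (h3.shift (-1)) h2

end triangle

/-! ### Complexes with terms of finite rank -/

lemma rank_homology (S : ShortComplex (ModuleCat.{0} ℚ)) (h2 : Module.Finite ℚ S.X₂) :
    Module.Finite ℚ S.homology ∧ Module.finrank ℚ S.X₂ =
      Module.finrank ℚ S.homology + (rk S.f + rk S.g) := by
  have e : S.homology ≃ₗ[ℚ] (LinearMap.ker S.g.hom ⧸ LinearMap.range S.moduleCatToCycles) :=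
    S.moduleCatHomologyIso.toLinearEquiv
  refine ⟨Module.Finite.equiv e.symm, ?_⟩
  have h := LinearMap.finrank_range_add_finrank_ker S.g.hom
  have h3 := Submodule.finrank_quotient_add_finrank (LinearMap.range S.moduleCatToCycles)
  rw [← e.finrank_eq] at h3
  have h4 : Module.finrank ℚ (LinearMap.range S.moduleCatToCycles) = rk S.f := by
    have h5 : Submodule.map (LinearMap.ker S.g.hom).subtype (LinearMap.range S.moduleCatToCycles) =
        LinearMap.range S.f.hom := by
      rw [← LinearMap.range_comp]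
      congr 1
    unfold rk
    rw [← h5]
    exact (LinearEquiv.finrank_eq (Submodule.equivMapOfInjective _
      (Submodule.injective_subtype _) _))
  unfold rk at *
  omega

variable (F) in
/-- the rank of the `n`-th differential of `F(K)` -/
noncomputable def drk (K : CochainComplex C ℤ) (n : ℤ) : ℕ := rk (F.map (K.d n (n + 1)))

lemma rk_neg {M N : ModuleCat.{0} ℚ} (f : M ⟶ N) : rk (-f) = rk f := by
  unfold rk
  rw [ModuleCat.hom_neg, LinearMap.range_neg]

lemma rk_unit {M N : ModuleCat.{0} ℚ} (f : M ⟶ N) (ε : ℤˣ) : rk (ε • f) = rk f := by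
  rcases Int.units_eq_one_or ε with h | h
  · rw [h, one_smul]
  · rw [h, Units.neg_smul, one_smul, rk_neg]

omit [HasBinaryBiproducts C] [HasZeroObject C] in
/-- The dimensions of the cohomology of `F(K)`. -/
lemma hdim_terms {K : CochainComplex C ℤ} (hK : ∀ i, Module.Finite ℚ (F.obj (K.X i))) (n : ℤ) :
    Module.Finite ℚ (HC F n (toHK K)) ∧ Module.finrank ℚ (F.obj (K.X n)) =
      hdim F (toHK K) n + (drk F K (n - 1) + drk F K n) := by
  have e : coh F n (toHK K) ≅ (fc F (K⟦n⟧)).homology 0 :=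
    (coh0 F).mapIso (shiftHK K n) ≪≫ cohObj F (K⟦n⟧)
  have hrel1 : (ComplexShape.up ℤ).prev 0 = -1 := by simp
  have hrel2 : (ComplexShape.up ℤ).next 0 = 1 := by simp
  have e2 : (fc F (K⟦n⟧)).homology 0 ≅ ((fc F (K⟦n⟧)).sc' (-1) 0 1).homology :=
    ShortComplex.homologyMapIso ((fc F (K⟦n⟧)).isoSc' (-1) 0 1 hrel1 hrel2)
  have h1 := rank_homology ((fc F (K⟦n⟧)).sc' (-1) 0 1) (hK (0 + n))
  have h2 := finrank_iso ⟨e ≪≫ e2⟩
  have h3 : Module.finrank ℚ ((fc F (K⟦n⟧)).sc' (-1) 0 1).X₂ = Module.finrank ℚ (F.obj (K.X n)) := by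
    change Module.finrank ℚ (F.obj (K.X (0 + n))) = _
    rw [zero_add]
  have h4 : rk ((fc F (K⟦n⟧)).sc' (-1) 0 1).f = drk F K (n - 1) := by
    change rk (F.map (n.negOnePow • K.d (-1 + n) (0 + n))) = rk (F.map (K.d (n - 1) (n - 1 + 1)))
    have h5 : F.map (n.negOnePow • K.d (-1 + n) (0 + n)) =
        n.negOnePow • F.map (K.d (-1 + n) (0 + n)) := by
      rw [Units.smul_def, Units.smul_def, F.map_zsmul]
    rw [h5, rk_unit]
    congr! 3 <;> ring
  have h6 : rk ((fc F (K⟦n⟧)).sc' (-1) 0 1).g = drk F K n := by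
    change rk (F.map (n.negOnePow • K.d (0 + n) (1 + n))) = rk (F.map (K.d n (n + 1)))
    have h5 : F.map (n.negOnePow • K.d (0 + n) (1 + n)) =
        n.negOnePow • F.map (K.d (0 + n) (1 + n)) := by
      rw [Units.smul_def, Units.smul_def, F.map_zsmul]
    rw [h5, rk_unit]
    congr! 3 <;> ring
  refine ⟨finite_iso ⟨(e ≪≫ e2).symm⟩ h1.1, ?_⟩
  rw [h3, h4, h6] at h1
  rw [h1.2]
  unfold hdim
  rw [h2]

/-- **The Euler characteristic of a bounded complex.** -/
theorem alt_terms {K : CochainComplex C ℤ} (hb : Bdd K)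
    (hK : ∀ i, Module.Finite ℚ (F.obj (K.X i))) : RankOK F (toHK K) ∧
      alt (hdim F (toHK K)) = alt fun n => Module.finrank ℚ (F.obj (K.X n)) := by
  have h := hdim_terms hK
  have h0 : FinSupp fun n => Module.finrank ℚ (F.obj (K.X n)) := by
    obtain ⟨a, b, hz⟩ := hb
    refine Set.Finite.subset (Set.finite_Icc a b) fun n hn => ?_
    rw [Set.mem_Icc]
    by_contra h1
    apply hn
    have h2 : IsZero (F.obj (K.X n)) := F.map_isZero (hz n (by omega))
    have h3 : Subsingleton (F.obj (K.X n)) := ModuleCat.subsingleton_of_isZero h2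
    exact Module.finrank_zero_of_subsingleton
  have h1 : FinSupp (hdim F (toHK K)) := h0.of_le fun n => by
    rw [(h n).2]
    omega
  have h2 : FinSupp (drk F K) := h0.of_le fun n => by
    rw [(h n).2]
    omega
  have h3 : FinSupp (fun n => drk F K n + drk F K (n - 1)) := h0.of_le fun n => by
    rw [(h n).2]
    omega
  refine ⟨⟨fun n => (h n).1, h1⟩, ?_⟩
  have h4 : (fun n => Module.finrank ℚ (F.obj (K.X n))) =
      fun n => hdim F (toHK K) n + (drk F K n + drk F K (n - 1)) := by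
    funext n
    rw [(h n).2]
    omega
  rw [h4, alt_add h1 h3, alt_two h2, add_zero]

end Pool.Agent.Helper24.KZ
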