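import Pool.Agent.Helper24.KZ.Holds

/-!
# Numerical formulas for the weight complexes of schemes
-/

set_option autoImplicit false

open CategoryTheory Limits AlgebraicGeometry MvPolynomial Pool.Agent.Y116.UV Pool.Agent.Z125.UN
  Pool.Agent.Q282.UM Pool.Agent.Q282.UK

namespace Pool.Agent.Helper24.KZ

universe v u

variable {C : Type u} [Category.{v} C] [Preadditive C] [HasBinaryBiproducts C] [HasZeroObject C]
  [HasFiniteBiproducts C] {A : Type*} [CommGroup A] {F : C ⥤ ModuleCat.{0} ℚ} [F.Additive]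
  {f : C → A} {Γ : Subgroup (A × Multiplicative ℤ)} {k : Type} [Field k] {D : Weights k C}

variable (F f Γ D) in
/-- The formula is true for all twists of the weight complex of `X`. -/
def All (X : Sch k) : Prop := ∀ n, Holds F f Γ (onHK (D.tw n) (D.W X))

omit [HasFiniteBiproducts C] in
lemma all_iso {X Y : Sch k} (e : Nonempty (D.W X ≅ D.W Y)) (h : All F f Γ D X) :
    All F f Γ D Y := by
  obtain ⟨e⟩ := e
  exact fun n => (h n).iso ⟨((D.tw n).mapHomotopyCategory (ComplexShape.up ℤ)).mapIso e⟩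

lemma all_twist (hD : IsWeights D) {X Y : Sch k} {m : ℤ}
    (e : Nonempty (D.W X ≅ onHK (D.tw m) (D.W Y))) : All F f Γ D X ↔ All F f Γ D Y := by
  obtain ⟨e⟩ := e
  have h1 : ∀ n, Nonempty (onHK (D.tw n) (D.W X) ≅ onHK (D.tw (m + n)) (D.W Y)) := by
    intro n
    obtain ⟨e1⟩ := hD.tw_add m n
    obtain ⟨e2⟩ := onHK_comp e1 (D.W Y)
    exact ⟨((D.tw n).mapHomotopyCategory (ComplexShape.up ℤ)).mapIso e ≪≫ e2.symm⟩
  constructor
  · intro h n
    have h2 := h1 (n - m)
    rw [add_sub_cancel] at h2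
    exact (h (n - m)).iso h2
  · intro h n
    exact (h (m + n)).iso ⟨(h1 n).some.symm⟩

section

variable (hf : Mult (fun _ : C => True) f)

include hf

omit [HasFiniteBiproducts C] in
lemma dist_mid {K L M : HK C} (h : IsDistinguished K L M) (hK : Holds F f Γ K)
    (hM : Holds F f Γ M) : Holds F f Γ L := by
  obtain ⟨a, b, d, h⟩ := h
  exact Holds.mid hf h hK hM

omit [HasFiniteBiproducts C] in
lemma dist_right {K L M : HK C} (h : IsDistinguished K L M) (hK : Holds F f Γ K)
    (hL : Holds F f Γ L) : Holds F f Γ M := by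
  obtain ⟨a, b, d, h⟩ := h
  exact Holds.third hf h hK hL

omit [HasFiniteBiproducts C] in
lemma dist_left {K L M : HK C} (h : IsDistinguished K L M) (hL : Holds F f Γ L)
    (hM : Holds F f Γ M) : Holds F f Γ K := by
  obtain ⟨a, b, d, h⟩ := h
  exact Holds.first hf h hL hM

omit [HasZeroObject C] [HasFiniteBiproducts C] in
lemma ob_twist_sum {S : C → Prop} (T : C ⥤ C) [T.Additive] (hS : ∀ M, S M → Ob F f Γ (T.obj M))
    {M : C} (hM : SumOf S M) : Ob F f Γ (T.obj M) := by
  induction hM with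
  | zero M h => exact Ob.zero hf (T.map_isZero h)
  | of M h => exact hS M h
  | sum M N _ _ h1 h2 =>
    have : PreservesBinaryBiproduct M N T := (preservesBinaryBiproducts_of_preservesBiproducts T).preserves
    refine Ob.iso (fun e => hf.val_iso e trivial) ⟨?_⟩ (Ob.sum hf h1 h2)
    exact (T.mapBiprod M N).symm
  | iso M N e _ h => exact Ob.iso (fun e => hf.val_iso e trivial) ⟨T.mapIso e.some⟩ h

/-- From smooth projective schemes to all schemes. -/
theorem all_of_projective (hD : IsWeightsZero D) {N : ℕ}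
    (h : ∀ Y : Sch k, IsSmoothProjective Y → topologicalKrullDim Y.left ≤ N →
      ∀ n : ℤ, Ob F f Γ ((D.tw n).obj (D.h Y))) (X : Sch k) (hX : FT True X)
    (hN : topologicalKrullDim X.left ≤ N) : All F f Γ D X := by
  intro n
  obtain ⟨K, hb, ⟨e⟩, hK⟩ := hD.terms X hX N hN
  refine Holds.iso ⟨((D.tw n).mapHomotopyCategory (ComplexShape.up ℤ)).mapIso e.symm⟩ ?_
  change Holds F f Γ (toHK (((D.tw n).mapHomologicalComplex (ComplexShape.up ℤ)).obj K))
  refine Holds.of_terms hf ?_ fun i => ?_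
  · obtain ⟨a, b, hz⟩ := hb
    exact ⟨a, b, fun i hi => (D.tw n).map_isZero (hz i hi)⟩
  · change Ob F f Γ ((D.tw n).obj (K.X i))
    refine ob_twist_sum hf (D.tw n) ?_ (hK i)
    rintro M ⟨Y, m, h1, h2, ⟨e⟩⟩
    obtain ⟨e1⟩ := hD.tw_add m n
    exact Ob.iso (fun e => hf.val_iso e trivial) ⟨e1.app (D.h Y) ≪≫ (D.tw n).mapIso e⟩
      (h Y h1 h2 (m + n))

omit [HasZeroObject C] [HasFiniteBiproducts C] in
lemma low_sum {S : C → Prop} (hS : ∀ M, S M → ∃ n₀ : ℤ, ∀ n ≤ n₀, Ob F f Γ ((D.tw n).obj M))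
    {M : C} (hM : SumOf S M) : ∃ n₀ : ℤ, ∀ n ≤ n₀, Ob F f Γ ((D.tw n).obj M) := by
  induction hM with
  | zero M h => exact ⟨0, fun n _ => Ob.zero hf ((D.tw n).map_isZero h)⟩
  | of M h => exact hS M h
  | sum M N _ _ h1 h2 =>
    obtain ⟨n₁, h1⟩ := h1
    obtain ⟨n₂, h2⟩ := h2
    refine ⟨min n₁ n₂, fun n hn => ?_⟩
    have : PreservesBinaryBiproduct M N (D.tw n) :=
      (preservesBinaryBiproducts_of_preservesBiproducts (D.tw n)).preserves
    exact Ob.iso (fun e => hf.val_iso e trivial) ⟨((D.tw n).mapBiprod M N).symm⟩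
      (Ob.sum hf (h1 n (hn.trans (min_le_left _ _))) (h2 n (hn.trans (min_le_right _ _))))
  | iso M N e _ h =>
    obtain ⟨n₀, h⟩ := h
    exact ⟨n₀, fun n hn => Ob.iso (fun e => hf.val_iso e trivial) ⟨(D.tw n).mapIso e.some⟩
      (h n hn)⟩

/-- The formula is true for the twists `W(X)(n)` with small `n`. -/
lemma low_all (hD : IsWeightsZero D) (hlow : ∀ Y : Sch k, IsSmoothProjective Y → ∀ n : ℤ, n ≤ 0 →
    Ob F f Γ ((D.tw n).obj (D.h Y))) (X : Sch k) (hX : FT True X) {N : ℕ}
    (hN : topologicalKrullDim X.left ≤ N) :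
    ∃ n₀ : ℤ, ∀ n ≤ n₀, Holds F f Γ (onHK (D.tw n) (D.W X)) := by
  classical
  obtain ⟨K, ⟨a, b, hz⟩, ⟨e⟩, hK⟩ := hD.terms X hX N hN
  have h1 : ∀ i, ∃ n₀ : ℤ, ∀ n ≤ n₀, Ob F f Γ ((D.tw n).obj (K.X i)) := by
    intro i
    refine low_sum hf ?_ (hK i)
    rintro M ⟨Y, m, h1, -, ⟨e⟩⟩
    refine ⟨-m, fun n hn => ?_⟩
    obtain ⟨e1⟩ := hD.tw_add m n
    exact Ob.iso (fun e => hf.val_iso e trivial) ⟨e1.app (D.h Y) ≪≫ (D.tw n).mapIso e⟩
      (hlow Y h1 (m + n) (by omega))
  choose g hg using h1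
  have h2 : ∃ n₀ : ℤ, ∀ i ∈ Finset.Icc a b, n₀ ≤ g i := by
    rcases (Finset.Icc a b).eq_empty_or_nonempty with h | h
    · exact ⟨0, fun i hi => by rw [h] at hi; simp at hi⟩
    · exact ⟨(Finset.Icc a b).inf' h g, fun i hi => Finset.inf'_le g hi⟩
  obtain ⟨n₀, h2⟩ := h2
  refine ⟨n₀, fun n hn => ?_⟩
  refine Holds.iso ⟨((D.tw n).mapHomotopyCategory (ComplexShape.up ℤ)).mapIso e.symm⟩ ?_
  change Holds F f Γ (toHK (((D.tw n).mapHomologicalComplex (ComplexShape.up ℤ)).obj K))
  refine Holds.of_terms hf ⟨a, b, fun i hi => (D.tw n).map_isZero (hz i hi)⟩ fun i => ?_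
  change Ob F f Γ ((D.tw n).obj (K.X i))
  by_cases hi : i ∈ Finset.Icc a b
  · exact hg i n (hn.trans (h2 i hi))
  · rw [Finset.mem_Icc] at hi
    exact Ob.zero hf ((D.tw n).map_isZero (hz i (by omega)))

omit hf [Preadditive C] [HasBinaryBiproducts C] [HasZeroObject C] [HasFiniteBiproducts C] in
lemma exists_dim_aff (B : Type) [CommRing B] [Algebra k B] [Algebra.FiniteType k B] :
    ∃ N : ℕ, topologicalKrullDim (aff k B).left ≤ N := by
  obtain ⟨n, φ, hφ⟩ := Algebra.FiniteType.iff_quotient_mvPolynomial''.mp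
    (inferInstance : Algebra.FiniteType k B)
  refine ⟨n, ?_⟩
  rw [topDim_aff]
  have h1 : ringKrullDim B ≤ ringKrullDim (MvPolynomial (Fin n) k) :=
    ringKrullDim_le_of_surjective φ.toRingHom hφ
  rw [MvPolynomial.ringKrullDim_of_isNoetherianRing, ringKrullDim_eq_zero_of_field, zero_add,
    Nat.card_fin] at h1
  exact h1

lemma all_laurent (hD : IsWeightsZero D) (hlow : ∀ Y : Sch k, IsSmoothProjective Y → ∀ n : ℤ,
    n ≤ 0 → Ob F f Γ ((D.tw n).obj (D.h Y))) {B : Type} [CommRing B] [Algebra k B]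
    [Algebra.FiniteType k B] (h : All F f Γ D (aff k (LaurentPolynomial B))) :
    All F f Γ D (aff k B) := by
  obtain ⟨N, hN⟩ := exists_dim_aff (k := k) B
  obtain ⟨n₀, h0⟩ := low_all hf hD hlow (aff k B) (ft_aff True) hN
  have step : ∀ n : ℤ, Holds F f Γ (onHK (D.tw (n - 1)) (D.W (aff k B))) →
      Holds F f Γ (onHK (D.tw n) (D.W (aff k B))) := by
    intro n hn
    have h1 := onHK_triangle (D.tw n) (hD.line B)
    obtain ⟨e1⟩ := hD.tw_add (-1) n
    obtain ⟨e2⟩ := onHK_comp e1 (D.W (aff k B))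
    have h2 : Holds F f Γ (onHK (D.tw n) (onHK (D.tw (-1)) (D.W (aff k B)))) := by
      refine Holds.iso ⟨e2⟩ ?_
      rw [show (-1 : ℤ) + n = n - 1 by ring]
      exact hn
    exact dist_right hf h1 (h n) h2
  have up : ∀ j : ℕ, Holds F f Γ (onHK (D.tw (n₀ + (j : ℤ))) (D.W (aff k B))) := by
    intro j
    induction j with
    | zero => exact h0 _ (by simp)
    | succ j ih =>
      refine step _ ?_
      rw [show n₀ + ((j + 1 : ℕ) : ℤ) - 1 = n₀ + (j : ℤ) by push_cast; ring]
      exact ih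
  intro n
  rcases le_total n n₀ with hn | hn
  · exact h0 n hn
  · have h1 := up (n - n₀).toNat
    rw [show n₀ + ((n - n₀).toNat : ℤ) = n by omega] at h1
    exact h1

omit hf in
lemma all_space (hD : IsWeightsZero D) (hp : All F f Γ D (aff k k)) (n : ℕ) :
    All F f Γ D (aff k (MvPolynomial (Fin n) k)) := by
  have h2 := hD.bundle k (n + 1) (f1 k n) (aff k k) (𝟙 _) ⟨inferInstance, range_id n⟩
  have h3 : All F f Γ D (jouS (f1 k n)) := (all_twist hD.toIsWeights h2).mpr hp
  exact all_iso (hD.iso (ft_aff True) ⟨(affIso (jouOne k n)).symm⟩) h3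

variable (hlow : ∀ Y : Sch k, IsSmoothProjective Y → ∀ n : ℤ, n ≤ 0 →
  Ob F f Γ ((D.tw n).obj (D.h Y)))

include hlow

/-- The hypersurface `x y z = 1` and the point. -/
lemma all_point (hD : IsWeightsZero D) (h : All F f Γ D (hypS (one3 k))) :
    All F f Γ D (aff k k) := by
  have h1 := ft_laurent (R := k) k
  have h2 := ft_laurent (R := k) (LaurentPolynomial k)
  refine all_laurent hf hD hlow (all_laurent hf hD hlow ?_)
  exact all_iso (hD.iso (ft_aff True) ⟨(affIso (cubeE k)).symm⟩) h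

/-- The closure properties. -/
theorem bnd_all (hD : IsWeightsZero D) (hp : All F f Γ D (aff k k)) :
    Bnd True fun X : Sch k => All F f Γ D X where
  iso hX e h := all_iso (hD.iso hX e) h
  total i j h ht hZ hU n :=
    dist_mid hf (onHK_triangle (D.tw n) (hD.triangle i j h ht)) (hU n) (hZ n)
  opened i j h ht hZ hX n :=
    dist_left hf (onHK_triangle (D.tw n) (hD.triangle i j h ht)) (hX n) (hZ n)
  closed i j h ht hX hU n :=
    dist_right hf (onHK_triangle (D.tw n) (hD.triangle i j h ht)) (hU n) (hX n)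
  space := all_space hD hp
  jouanolou B _ _ _ m f U j hj hr h :=
    (all_twist hD.toIsWeights (hD.bundle B m f U j ⟨hj, hr⟩)).mp h
  torus B _ _ _ h := all_laurent hf hD hlow h
  bundle B _ _ _ m f U j hj hr h :=
    (all_twist hD.toIsWeights (hD.bundle B m f U j ⟨hj, hr⟩)).mpr h

omit hlow [HasFiniteBiproducts C] in
lemma of_inZero {n : ℤ} {M : C} {K : HK C} (e : Nonempty (K ≅ inZero M))
    (h : Holds F f Γ (onHK (D.tw n) K)) : Ob F f Γ ((D.tw n).obj M) := by
  obtain ⟨e⟩ := e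
  refine Holds.to_object hf (Holds.iso ⟨((D.tw n).mapHomotopyCategory
    (ComplexShape.up ℤ)).mapIso e ≪≫ ?_⟩ h)
  exact (HomotopyCategory.quotient C (ComplexShape.up ℤ)).mapIso
    ((HomologicalComplex.singleMapHomologicalComplex (D.tw n) (ComplexShape.up ℤ) 0).app M)

/-- **Dimension `N` and trilinear forms with a block of `N + 2` variables.** -/
theorem forms_dim [PerfectField k] (hD : IsWeightsZero D) (N : ℕ) :
    (∀ X : Sch k, IsSmoothProjective X → topologicalKrullDim X.left ≤ N →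
      ∀ n : ℤ, Ob F f Γ ((D.tw n).obj (D.h X))) ↔
    ∀ (a b c : ℕ) (T : Fin a → Fin b → Fin c → k), (a ≤ N + 2 ∨ b ≤ N + 2 ∨ c ≤ N + 2) →
      All F f Γ D (hypS T) := by
  constructor
  · intro h
    have hall := all_of_projective hf hD h
    have hp : All F f Γ D (aff k k) := by
      refine hall _ (ft_aff True) ?_
      rw [topDim_aff, ringKrullDim_eq_zero_of_field]
      exact_mod_cast Nat.zero_le N
    have hB := bnd_all hf hlow hD hp
    have h2 : ∀ I : Ideal (MvPolynomial (Fin (N + 1)) k),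
        All F f Γ D (aff k (MvPolynomial (Fin (N + 1)) k ⧸ I)) :=
      dim_to_closed hB fun B _ _ _ hA => hall _ (ft_aff True) (by rw [topDim_aff]; exact hA)
    intro a b c T hm
    exact of_block hB (fun a b c' hc' T => to_tri hB h2 a b c' hc' T) T hm
  · intro h X hX hN n
    have hp : All F f Γ D (aff k k) := all_point hf hlow hD (h 1 1 1 (one3 k) (Or.inl (by omega)))
    have hB := bnd_all hf hlow hD hp
    have h3 := (dim_tri hB N).mpr (fun a b T => h a b (N + 2) T (Or.inr (Or.inr le_rfl))) X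
    exact of_inZero hf (hD.projective X hX) (h3 (ft_projective hX) hN n)

theorem forms_set (hD : IsWeightsZero D) {S : Set k} (h0 : 0 ∈ S) (h1 : 1 ∈ S)
    (hS : Presents S) :
    (∀ X : Sch k, IsSmoothProjective X → ∀ n : ℤ, Ob F f Γ ((D.tw n).obj (D.h X))) ↔
      ∀ (a b c : ℕ) (T : Fin a → Fin b → Fin c → k), (∀ i j l, T i j l ∈ S) →
        All F f Γ D (hypS T) := by
  constructor
  · intro h a b c T _
    obtain ⟨N, hN⟩ := dim_hypS T
    exact all_of_projective hf hD (fun X hX _ => h X hX) _ (ft_aff True) hN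
  · intro h X hX n
    have hp : All F f Γ D (aff k k) := all_point hf hlow hD (h 1 1 1 (one3 k) fun _ _ _ => h1)
    have hB := bnd_all hf hlow hD hp
    exact of_inZero hf (hD.projective X hX)
      (universal hB.toUni h0 h1 h hS X (ft_projective hX) n)

/-- All trilinear forms. -/
theorem forms_all (hD : IsWeightsZero D) :
    (∀ X : Sch k, IsSmoothProjective X → ∀ n : ℤ, Ob F f Γ ((D.tw n).obj (D.h X))) ↔
      ∀ (a b c : ℕ) (T : Fin a → Fin b → Fin c → k), All F f Γ D (hypS T) := by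
  rw [forms_set hf hlow hD (Set.mem_univ 0) (Set.mem_univ 1) presents_univ]
  exact ⟨fun h a b c T => h a b c T fun _ _ _ => trivial, fun h a b c T _ => h a b c T⟩

/-- Tripartite hypergraphs. -/
theorem forms_graph (hk : Presents ({0, 1} : Set k)) (hD : IsWeightsZero D) :
    (∀ X : Sch k, IsSmoothProjective X → ∀ n : ℤ, Ob F f Γ ((D.tw n).obj (D.h X))) ↔
      ∀ (a b c : ℕ) (E : Finset (Fin a × Fin b × Fin c)), All F f Γ D (tripS k E) := by
  classical
  rw [forms_set hf hlow hD (Or.inl rfl) (Or.inr rfl) hk]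
  constructor
  · intro h a b c E
    have h1 := h a b c (fun i j l => if (i, j, l) ∈ E then (1 : k) else 0) (by
      intro i j l
      by_cases h2 : (i, j, l) ∈ E
      · exact Or.inr (if_pos h2)
      · exact Or.inl (if_neg h2))
    have h3 : hypS (fun i j l => if (i, j, l) ∈ E then (1 : k) else 0) = tripS k E := by
      unfold hypS tripS Hyp Trip
      rw [tri_ind]
    rw [h3] at h1
    exact h1
  · intro h a b c T hT
    let E : Finset (Fin a × Fin b × Fin c) := Finset.univ.filter fun e => T e.1 e.2.1 e.2.2 = 1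
    have h1 : T = fun i j l => if (i, j, l) ∈ E then (1 : k) else 0 := by
      funext i j l
      have hm : (i, j, l) ∈ E ↔ T i j l = 1 := by
        rw [Finset.mem_filter]
        exact ⟨fun h => h.2, fun h => ⟨Finset.mem_univ _, h⟩⟩
      by_cases h : T i j l = 1
      · rw [if_pos (hm.mpr h), h]
      · rw [if_neg fun h2 => h (hm.mp h2)]
        rcases hT i j l with h2 | h2
        · exact h2
        · exact absurd h2 h
    have h3 : hypS (fun i j l => if (i, j, l) ∈ E then (1 : k) else 0) = tripS k E := by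
      unfold hypS tripS Hyp Trip
      rw [tri_ind]
    rw [h1, h3]
    exact h a b c E

end

end Pool.Agent.Helper24.KZ
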