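import Pool.Agent.Helper24.KZ.Motives

/-!
# The conjecture of Beilinson and Bloch and cubic hypersurfaces: the statements
-/

set_option autoImplicit false

open CategoryTheory Limits AlgebraicGeometry Pool.Agent.Y116.UV Pool.Agent.Z125.UN
  Pool.Agent.Q282.UM Pool.Agent.Q282.UK

namespace Pool.Agent.Helper24.KZ

universe v u

section

variable {k : Type} [Field k] {C : Type u} [Category.{v} C] [Preadditive C]

variable [HasZeroObject C] [HasBinaryBiproducts C] [HasFiniteBiproducts C] {D : MotivesL k C}
  (hD : IsMotivesL D)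

include hD

lemma formulaFor_iff (Y : Sch k) : FormulaFor D Y ↔ All D.cyc (fL hD) Gam D.toWeights Y :=
  forall_congr' fun n => (holds_iff hD _).symm

lemma bbFor_iff (X : Sch k) (hX : IsSmoothProjective X) :
    BBFor D X ↔ ∀ n : ℤ, Ob D.cyc (fL hD) Gam ((D.tw n).obj (D.h X)) := by
  constructor
  · intro h n
    rcases le_or_gt n 0 with hn | hn
    · exact low_ob hD X hX n hn
    · have h1 := h n.toNat (by omega)
      rw [Int.toNat_of_nonneg hn.le] at h1
      exact (ob_iff hD _).mpr h1
  · intro h i _
    exact (ob_iff hD _).mp (h i)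

theorem blocks [PerfectField k] (N : ℕ) :
    (∀ X : Sch k, IsSmoothProjective X → topologicalKrullDim X.left ≤ N → BBFor D X) ↔
      ∀ (a b c : ℕ) (T : Fin a → Fin b → Fin c → k), (a ≤ N + 2 ∨ b ≤ N + 2 ∨ c ≤ N + 2) →
        FormulaFor D (hypS T) := by
  have h := forms_dim (fL_mult hD) (low_ob hD) hD.toIsWeightsZero N
  simp only [formulaFor_iff hD]
  rw [← h]
  exact forall_congr' fun X => forall_congr' fun hX => forall_congr' fun _ => bbFor_iff hD X hX

theorem graphs (hk : Presents ({0, 1} : Set k)) :
    (∀ X : Sch k, IsSmoothProjective X → BBFor D X) ↔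
      ∀ (a b c : ℕ) (E : Finset (Fin a × Fin b × Fin c)), FormulaFor D (tripS k E) := by
  have h := forms_graph (fL_mult hD) (low_ob hD) hk hD.toIsWeightsZero
  simp only [formulaFor_iff hD]
  rw [← h]
  exact forall_congr' fun X => forall_congr' fun hX => bbFor_iff hD X hX

end

end Pool.Agent.Helper24.KZ
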